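import Pool.Agent.W649.ZL.Supp
import Pool.Agent.W649.ZL.Mat

set_option autoImplicit false
set_option linter.unusedSectionVars false
set_option linter.unusedSimpArgs false

open scoped InnerProductSpace InnerProduct ENNReal

/-! Restriction of a convolution matrix to cosets of a subgroup. -/

namespace Run7.h266.AZ

open Pool.Agent.W649.ZL

universe u v w z y

section
variable {G : Type u} {K : Type v} {L : Type w} {ι : Type z} {I : Type y} [Group G]
  [Fintype K] [Fintype L] [DecidableEq K] [DecidableEq L] [Fintype ι] [Fintype I] [DecidableEq I]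

/-- rank plus nullity -/
theorem vd_range (T : EE G K →L[ℂ] EE G L) (hT : Eqv T) :
    vd (LinearMap.range (T : EE G K →ₗ[ℂ] EE G L))
      = Fintype.card K - vd (LinearMap.ker (T : EE G K →ₗ[ℂ] EE G L)) := by
  have h := rank_nullity T hT (U := ⊤) (fun _ _ _ => trivial) isClosed_univ
  rw [vd_top, top_inf_eq, Submodule.map_top] at h
  linarith

/-- the number of rows minus the dimension of the kernel, as a sum of squared distances -/
theorem sum_infDist (P : Submodule ℂ (EE G K)) (hP : IsClosed (P : Set (EE G K))) :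
    ∑ j : K, Metric.infDist (dl ((1 : G), j)) (P : Set (EE G K)) ^ 2 = Fintype.card K - vd P := by
  rw [vd_eq_infDist P hP, Finset.sum_sub_distrib]
  simp

theorem tr_eq_iff (k : G) (f g : EE G K) : tr k f = g ↔ f = tr k⁻¹ g := by
  constructor
  · rintro rfl
    rw [tr_tr, inv_mul_cancel, tr_one]
  · rintro rfl
    rw [tr_tr, mul_inv_cancel, tr_one]

theorem isometry_tr (k : G) : Isometry (tr k : EE G K → EE G K) := by
  apply Isometry.of_dist_eq
  intro f g
  rw [dist_eq_norm, dist_eq_norm]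
  have e : tr k f - tr k g = tr k (f - g) := by ext x; rfl
  rw [e, norm_tr]

/-- the distances from all basis vectors of one row to an invariant subspace are equal -/
theorem infDist_dl (P : Submodule ℂ (EE G K)) (hP : Pool.Agent.W649.ZL.Inv P) (x : G) (j : K) :
    Metric.infDist (dl (x, j)) (P : Set (EE G K))
      = Metric.infDist (dl ((1 : G), j)) (P : Set (EE G K)) := by
  have h1 : (P : Set (EE G K)) = tr x⁻¹ '' (P : Set (EE G K)) := by
    ext f
    constructor
    · intro hf
      refine ⟨tr x f, hP x f hf, ?_⟩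
      rw [tr_tr, inv_mul_cancel, tr_one]
    · rintro ⟨g, hg, rfl⟩
      exact hP _ g hg
  have h2 : (dl (x, j) : EE G K) = tr x⁻¹ (dl ((1 : G), j)) := by
    rw [tr_dl]; simp
  conv_lhs => rw [h1, h2]
  rw [Metric.infDist_image (isometry_tr x⁻¹)]

theorem Inv_ker (T : EE G K →L[ℂ] EE G L) (hT : Eqv T) :
    Pool.Agent.W649.ZL.Inv (LinearMap.ker (T : EE G K →ₗ[ℂ] EE G L)) := by
  intro k f hf
  have hf' : T f = 0 := hf
  change T (tr k f) = 0
  rw [hT, hf', tr_zero]

open Classical in
/-- restriction to the cosets -/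
theorem memlp_phi (H : Subgroup G) (t : I → G) (p : I → K)
    (hinj : ∀ i j, p i = p j → t i * (t j)⁻¹ ∈ H → i = j) (f : EE G K) :
    Memℓp (fun x : G × I => if x.1 ∈ H then f ((t x.2)⁻¹ * x.1, p x.2) else 0) 2 := by
  rw [memlp_two_iff]
  have h1 := (memlp_two_iff _).1 f.2
  have h2 : Summable (fun x : {x : G × I // x.1 ∈ H} =>
      ‖f ((t x.1.2)⁻¹ * x.1.1, p x.1.2)‖ ^ 2) := by
    refine h1.comp_injective (i := fun x : {x : G × I // x.1 ∈ H} =>
      (((t x.1.2)⁻¹ * x.1.1, p x.1.2) : G × K)) ?_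
    rintro ⟨⟨a, i⟩, ha⟩ ⟨⟨b, j⟩, hb⟩ hab
    simp only [Prod.mk.injEq] at hab
    have hij : i = j := by
      apply hinj i j hab.2
      have : t i * (t j)⁻¹ = a * b⁻¹ := by
        have h3 := hab.1
        rw [inv_mul_eq_iff_eq_mul] at h3
        rw [h3]
        group
      rw [this]
      exact H.mul_mem ha (H.inv_mem hb)
    subst hij
    have : a = b := mul_left_cancel hab.1
    subst this
    rfl
  have hinj2 : Function.Injective (fun x : {x : G × I // x.1 ∈ H} => x.1) :=
    Subtype.val_injective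
  refine (hinj2.summable_iff (fun x hx => ?_)).1 ?_
  · have : x.1 ∉ H := fun h => hx ⟨⟨x, h⟩, rfl⟩
    simp [this]
  · refine h2.congr fun x => ?_
    simp [x.2]

open Classical in
/-- restriction to the cosets, as a vector -/
noncomputable def phi (H : Subgroup G) (t : I → G) (p : I → K)
    (hinj : ∀ i j, p i = p j → t i * (t j)⁻¹ ∈ H → i = j) (f : EE G K) : EE G I :=
  ⟨fun x => if x.1 ∈ H then f ((t x.2)⁻¹ * x.1, p x.2) else 0, memlp_phi H t p hinj f⟩

open Classical in
theorem phi_apply (H : Subgroup G) (t : I → G) (p : I → K)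
    (hinj : ∀ i j, p i = p j → t i * (t j)⁻¹ ∈ H → i = j) (f : EE G K) (x : G) (i : I) :
    phi H t p hinj f (x, i) = if x ∈ H then f ((t i)⁻¹ * x, p i) else 0 := rfl

theorem norm_phi_le (H : Subgroup G) (t : I → G) (p : I → K)
    (hinj : ∀ i j, p i = p j → t i * (t j)⁻¹ ∈ H → i = j) (f : EE G K) :
    ‖phi H t p hinj f‖ ≤ ‖f‖ := by
  classical
  have e : ‖phi H t p hinj f‖ ^ 2 ≤ ‖f‖ ^ 2 := by
    rw [norm_sq_tsum, norm_sq_tsum]
    have h1 := (memlp_two_iff _).1 f.2
    have hinj2 : Function.Injective (fun x : {x : G × I // x.1 ∈ H} => x.1) :=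
      Subtype.val_injective
    have h3 : Function.support (fun x : G × I => ‖phi H t p hinj f x‖ ^ 2)
        ⊆ Set.range (fun x : {x : G × I // x.1 ∈ H} => x.1) := by
      rintro ⟨x, i⟩ hx
      by_cases hi : x ∈ H
      · exact ⟨⟨(x, i), hi⟩, rfl⟩
      · exfalso
        apply hx
        have h0 : phi H t p hinj f (x, i) = 0 := by rw [phi_apply, if_neg hi]
        show ‖phi H t p hinj f (x, i)‖ ^ 2 = 0
        rw [h0]
        simp
    rw [← hinj2.tsum_eq h3]
    have e1 : (fun x : {x : G × I // x.1 ∈ H} => ‖phi H t p hinj f x.1‖ ^ 2)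
        = (fun y : G × K => ‖f y‖ ^ 2) ∘ (fun x : {x : G × I // x.1 ∈ H} =>
          (((t x.1.2)⁻¹ * x.1.1, p x.1.2) : G × K)) := by
      funext x
      obtain ⟨⟨a, i⟩, ha⟩ := x
      simp only [Function.comp]
      rw [phi_apply, if_pos ha]
    rw [e1]
    refine tsum_comp_le_tsum_of_inj h1 (fun _ => by positivity) ?_
    rintro ⟨⟨a, i⟩, ha⟩ ⟨⟨b, j⟩, hb⟩ hab
    simp only [Prod.mk.injEq] at hab
    have hij : i = j := by
      apply hinj i j hab.2
      have : t i * (t j)⁻¹ = a * b⁻¹ := by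
        have h3 := hab.1
        rw [inv_mul_eq_iff_eq_mul] at h3
        rw [h3]
        group
      rw [this]
      exact H.mul_mem ha (H.inv_mem hb)
    subst hij
    have : a = b := mul_left_cancel hab.1
    subst this
    rfl
  exact (sq_le_sq₀ (norm_nonneg _) (norm_nonneg _)).1 e

theorem phi_sub (H : Subgroup G) (t : I → G) (p : I → K)
    (hinj : ∀ i j, p i = p j → t i * (t j)⁻¹ ∈ H → i = j) (f g : EE G K) :
    phi H t p hinj f - phi H t p hinj g = phi H t p hinj (f - g) := by
  classical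
  ext ⟨x, i⟩
  change phi H t p hinj f (x, i) - phi H t p hinj g (x, i) = phi H t p hinj (f - g) (x, i)
  rw [phi_apply, phi_apply, phi_apply]
  split_ifs
  · rfl
  · rw [sub_zero]

theorem phi_dl (H : Subgroup G) (t : I → G) (p : I → K)
    (hinj : ∀ i j, p i = p j → t i * (t j)⁻¹ ∈ H → i = j) (i : I) :
    phi H t p hinj (dl ((t i)⁻¹, p i)) = dl (1, i) := by
  classical
  ext ⟨x, j⟩
  rw [phi_apply]
  by_cases hx : (x, j) = (1, i)
  · obtain ⟨rfl, rfl⟩ := Prod.mk.inj hx
    rw [if_pos H.one_mem, mul_one, dl_apply_self, dl_apply_self]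
  · rw [dl_apply_ne _ _ hx]
    split_ifs with hH
    · apply dl_apply_ne
      intro h
      apply hx
      obtain ⟨h1, h2⟩ := Prod.mk.inj h
      rw [inv_mul_eq_iff_eq_mul] at h1
      have hji : j = i := by
        apply hinj j i h2
        rw [← h1]
        exact hH
      subst hji
      rw [mul_inv_cancel] at h1
      rw [h1]
    · rfl

/-- the convolution matrix with the terms `a i`, `h i` in place `(j i, k i)` -/
noncomputable def op (h : ι → G) (k : ι → K) (j : ι → L) (a : ι → ℂ) : EE G K →L[ℂ] EE G L :=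
  ∑ i, a i • elem (h i) (j i) (k i)

theorem op_apply (h : ι → G) (k : ι → K) (j : ι → L) (a : ι → ℂ) (F : EE G K) (x : G) (l : L) :
    op h k j a F (x, l) = ∑ i, a i * (if l = j i then F ((h i)⁻¹ * x, k i) else 0) := by
  unfold op
  rw [sum_apply, sum_apply_EE]
  rfl

theorem op_eqv (h : ι → G) (k : ι → K) (j : ι → L) (a : ι → ℂ) : Eqv (op h k j a) := by
  intro g F
  ext ⟨x, l⟩
  rw [op_apply, tr_apply, op_apply]
  refine Finset.sum_congr rfl fun i _ => ?_
  congr 1
  split_ifs
  · rw [tr_apply, mul_assoc]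
  · rfl

/-- the unfolded matrix, with coefficients in the subgroup -/
noncomputable def opR (t : I → G) (c : ι → I) (h : ι → G) (j : ι → L) (a : ι → ℂ) :
    EE G I →L[ℂ] EE G L :=
  op (fun i => h i * (t (c i))⁻¹) c j a

theorem phi_ker (H : Subgroup G) (t : I → G) (p : I → K)
    (hinj : ∀ i j, p i = p j → t i * (t j)⁻¹ ∈ H → i = j) (c : ι → I) (h : ι → G) (k : ι → K)
    (j : ι → L) (a : ι → ℂ) (hpc : ∀ i, p (c i) = k i) (hH : ∀ i, h i * (t (c i))⁻¹ ∈ H)
    (f : EE G K) (hf : op h k j a f = 0) : opR t c h j a (phi H t p hinj f) = 0 := by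
  classical
  ext ⟨x, l⟩
  unfold opR
  rw [op_apply]
  by_cases hx : x ∈ H
  · have h1 : ∀ i, a i * (if l = j i then
        phi H t p hinj f ((h i * (t (c i))⁻¹)⁻¹ * x, c i) else 0)
        = a i * (if l = j i then f ((h i)⁻¹ * x, k i) else 0) := by
      intro i
      congr 1
      split_ifs
      · rw [phi_apply, if_pos (H.mul_mem (H.inv_mem (hH i)) hx), hpc]
        congr 2
        group
      · rfl
    rw [Finset.sum_congr rfl fun i _ => h1 i, ← op_apply, hf]
  · have h1 : ∀ i, a i * (if l = j i then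
        phi H t p hinj f ((h i * (t (c i))⁻¹)⁻¹ * x, c i) else 0) = 0 := by
      intro i
      split_ifs
      · rw [phi_apply, if_neg, mul_zero]
        intro hm
        apply hx
        have := H.mul_mem (hH i) hm
        rwa [mul_inv_cancel_left] at this
      · rw [mul_zero]
    rw [Finset.sum_eq_zero fun i _ => h1 i]
    rfl

/-- **The rank of the unfolded matrix.** -/
theorem rank_opR_le (H : Subgroup G) (t : I → G) (p : I → K)
    (hinj : ∀ i j, p i = p j → t i * (t j)⁻¹ ∈ H → i = j) (c : ι → I) (h : ι → G) (k : ι → K)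
    (j : ι → L) (a : ι → ℂ) (hpc : ∀ i, p (c i) = k i) (hH : ∀ i, h i * (t (c i))⁻¹ ∈ H)
    (κ : ℕ) (hκ : ∀ k, (Finset.univ.filter (fun i => p i = k)).card ≤ κ) :
    vd (LinearMap.range (opR t c h j a : EE G I →ₗ[ℂ] EE G L))
      ≤ κ * vd (LinearMap.range (op h k j a : EE G K →ₗ[ℂ] EE G L)) := by
  classical
  set R := opR t c h j a with hR
  set T := op h k j a with hT
  have hRe : Eqv R := op_eqv _ _ _ _
  have hTe : Eqv T := op_eqv _ _ _ _
  rw [vd_range R hRe, vd_range T hTe,
    ← sum_infDist _ (ContinuousLinearMap.isClosed_ker R),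
    ← sum_infDist _ (ContinuousLinearMap.isClosed_ker T)]
  have h1 : ∀ i : I, Metric.infDist (dl ((1 : G), i))
      ((LinearMap.ker (R : EE G I →ₗ[ℂ] EE G L) : Submodule ℂ (EE G I)) : Set (EE G I))
      ≤ Metric.infDist (dl ((1 : G), p i))
      ((LinearMap.ker (T : EE G K →ₗ[ℂ] EE G L) : Submodule ℂ (EE G K)) : Set (EE G K)) := by
    intro i
    rw [← infDist_dl _ (Inv_ker T hTe) (t i)⁻¹ (p i)]
    rw [Metric.le_infDist ⟨0, Submodule.zero_mem _⟩]
    intro f hf
    have hf' : T f = 0 := hf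
    have hm : phi H t p hinj f ∈ ((LinearMap.ker (R : EE G I →ₗ[ℂ] EE G L) :
        Submodule ℂ (EE G I)) : Set (EE G I)) :=
      phi_ker H t p hinj c h k j a hpc hH f hf'
    refine (Metric.infDist_le_dist_of_mem hm).trans ?_
    rw [dist_eq_norm, dist_eq_norm, ← phi_dl H t p hinj i, phi_sub]
    exact norm_phi_le H t p hinj _
  have h2 : ∀ i : I, Metric.infDist (dl ((1 : G), i))
      ((LinearMap.ker (R : EE G I →ₗ[ℂ] EE G L) : Submodule ℂ (EE G I)) : Set (EE G I)) ^ 2
      ≤ Metric.infDist (dl ((1 : G), p i))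
      ((LinearMap.ker (T : EE G K →ₗ[ℂ] EE G L) : Submodule ℂ (EE G K)) : Set (EE G K)) ^ 2 :=
    fun i => pow_le_pow_left₀ Metric.infDist_nonneg (h1 i) 2
  refine (Finset.sum_le_sum fun i _ => h2 i).trans ?_
  rw [← Finset.sum_fiberwise_of_maps_to (s := Finset.univ) (t := Finset.univ) (g := p)
    (fun _ _ => Finset.mem_univ _), Finset.mul_sum]
  refine Finset.sum_le_sum fun k' _ => ?_
  have h3 : ∑ i ∈ Finset.univ.filter (fun i => p i = k'), Metric.infDist (dl ((1 : G), p i))
      ((LinearMap.ker (T : EE G K →ₗ[ℂ] EE G L) : Submodule ℂ (EE G K)) : Set (EE G K)) ^ 2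
      = ∑ i ∈ Finset.univ.filter (fun i => p i = k'), Metric.infDist (dl ((1 : G), k'))
      ((LinearMap.ker (T : EE G K →ₗ[ℂ] EE G L) : Submodule ℂ (EE G K)) : Set (EE G K)) ^ 2 := by
    refine Finset.sum_congr rfl fun i hi => ?_
    rw [(Finset.mem_filter.1 hi).2]
  rw [h3, Finset.sum_const, nsmul_eq_mul]
  apply mul_le_mul_of_nonneg_right _ (sq_nonneg _)
  exact_mod_cast hκ k'

/-- **Selection of cosets.** -/
theorem rank_sel_le (H : Subgroup G) (t : I → G) (p : I → K)
    (hinj : ∀ i j, p i = p j → t i * (t j)⁻¹ ∈ H → i = j) (c : ι → I) (h : ι → G) (k : ι → K)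
    (j : ι → L) (a : ι → ℂ) (hpc : ∀ i, p (c i) = k i) (hH : ∀ i, h i * (t (c i))⁻¹ ∈ H)
    (κ : ℕ) (hκ : ∀ k, (Finset.univ.filter (fun i => p i = k)).card ≤ κ)
    (sel : I → Prop) [DecidablePred sel] :
    vd (LinearMap.range (op h k j (fun i => if sel (c i) then a i else 0) :
        EE G K →ₗ[ℂ] EE G L))
      ≤ κ * vd (LinearMap.range (op h k j a : EE G K →ₗ[ℂ] EE G L)) := by
  classical
  refine le_trans (vd_mono ?_) (rank_opR_le H t p hinj c h k j a hpc hH κ hκ)
  rintro _ ⟨f, rfl⟩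
  set Ψ : EE G K →L[ℂ] EE G I := ∑ i : I, (if sel i then (1 : ℂ) else 0) • elem (t i) i (p i)
    with hΨ
  refine ⟨Ψ f, ?_⟩
  have hΨa : ∀ (x : G) (i : I), Ψ f (x, i) = if sel i then f ((t i)⁻¹ * x, p i) else 0 := by
    intro x i
    rw [hΨ, sum_apply, sum_apply_EE, Finset.sum_eq_single i]
    · change (if sel i then (1 : ℂ) else 0) * (if i = i then f ((t i)⁻¹ * x, p i) else 0) = _
      rw [if_pos rfl]
      split_ifs
      · rw [one_mul]
      · rw [zero_mul]
    · intro i' _ hi'
      change (if sel i' then (1 : ℂ) else 0) * (if i = i' then f ((t i')⁻¹ * x, p i') else 0) = _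
      rw [if_neg (Ne.symm hi'), mul_zero]
    · intro hh; exact absurd (Finset.mem_univ _) hh
  change opR t c h j a (Ψ f) = op h k j (fun i => if sel (c i) then a i else 0) f
  ext ⟨x, l⟩
  unfold opR
  rw [op_apply, op_apply]
  refine Finset.sum_congr rfl fun i _ => ?_
  by_cases hl : l = j i
  · rw [if_pos hl, if_pos hl, hΨa, hpc]
    by_cases hs : sel (c i)
    · rw [if_pos hs, if_pos hs]
      congr 3
      group
    · rw [if_neg hs, if_neg hs, mul_zero, zero_mul]
  · rw [if_neg hl, if_neg hl, mul_zero, mul_zero]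

end

end Run7.h266.AZ
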