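import Pool.Agent.Run7.h266.AZ.Coset

set_option autoImplicit false
set_option linter.unusedSectionVars false
set_option linter.unusedSimpArgs false

open scoped InnerProductSpace InnerProduct ENNReal

/-! Elements of the group algebra: adjoints, ranks, restriction to cosets. -/

namespace Run7.h266.AZ

open Pool.Agent.W649.ZL

universe u

section
variable {G : Type u} [Group G]

/-- the rank of left convolution -/
noncomputable def rk (α : G →₀ ℂ) : ℝ :=
  vd (LinearMap.range (cop α : EE G Unit →ₗ[ℂ] EE G Unit))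

theorem rk_eq (α : G →₀ ℂ) :
    rk α = 1 - vd (LinearMap.ker (cop α : EE G Unit →ₗ[ℂ] EE G Unit)) := by
  unfold rk
  rw [vd_range _ (cop_eqv α)]
  simp

theorem rk_nonneg (α : G →₀ ℂ) : 0 ≤ rk α := vd_nonneg _

theorem rk_of_injective (α : G →₀ ℂ) (h : Function.Injective (cop α)) : rk α = 1 := by
  rw [rk_eq, vd_ker_of_injective _ h, sub_zero]

theorem cop_apply' (α : G →₀ ℂ) (T : Finset G) (hT : α.support ⊆ T) (f : EE G Unit) (x : G) :
    cop α f (x, ()) = ∑ k ∈ T, α k * f (k⁻¹ * x, ()) := by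
  rw [cop_apply]
  refine Finset.sum_subset hT fun k _ hk => ?_
  rw [Finsupp.notMem_support_iff.1 hk, zero_mul]

/-- the adjoint element -/
noncomputable def st (α : G →₀ ℂ) : G →₀ ℂ :=
  ∑ x ∈ α.support, Finsupp.single x⁻¹ ((starRingEnd ℂ) (α x))

theorem st_apply (α : G →₀ ℂ) (y : G) : st α y = (starRingEnd ℂ) (α y⁻¹) := by
  classical
  unfold st
  rw [Finsupp.finsetSum_apply]
  by_cases hy : y⁻¹ ∈ α.support
  · rw [Finset.sum_eq_single y⁻¹]
    · rw [inv_inv, Finsupp.single_eq_same]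
    · intro b _ hb
      rw [Finsupp.single_apply, if_neg]
      intro h
      exact hb (by rw [← h, inv_inv])
    · intro h; exact absurd hy h
  · rw [Finset.sum_eq_zero]
    · rw [Finsupp.notMem_support_iff.1 hy, map_zero]
    · intro b hb
      rw [Finsupp.single_apply, if_neg]
      intro h
      apply hy
      rw [← h, inv_inv]
      exact hb

theorem mem_support_st (α : G →₀ ℂ) (y : G) : y ∈ (st α).support ↔ y⁻¹ ∈ α.support := by
  rw [Finsupp.mem_support_iff, Finsupp.mem_support_iff, st_apply]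
  simp

theorem st_st (α : G →₀ ℂ) : st (st α) = α := by
  ext y
  rw [st_apply, st_apply, inv_inv, Complex.conj_conj]

theorem adjoint_Ltr (t : G) : ContinuousLinearMap.adjoint (Ltr t) = Ltr t⁻¹ := by
  symm
  rw [ContinuousLinearMap.eq_adjoint_iff]
  intro x y
  rw [lp.inner_eq_tsum, lp.inner_eq_tsum, ← Equiv.tsum_eq (Equiv.prodPUnit G).symm,
    ← Equiv.tsum_eq (Equiv.prodPUnit G).symm, ← Equiv.tsum_eq (Equiv.mulLeft t⁻¹)]
  refine tsum_congr fun g => ?_
  have h1 : Ltr t⁻¹ x (t⁻¹ * g, ()) = x (g, ()) := by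
    rw [Ltr_apply, inv_inv, mul_inv_cancel_left]
  have h2 : Ltr t y (g, ()) = y (t⁻¹ * g, ()) := Ltr_apply t y g
  change ⟪Ltr t⁻¹ x (t⁻¹ * g, ()), y (t⁻¹ * g, ())⟫_ℂ = ⟪x (g, ()), Ltr t y (g, ())⟫_ℂ
  rw [h1, h2]

theorem adjoint_cop (α : G →₀ ℂ) : ContinuousLinearMap.adjoint (cop α) = cop (st α) := by
  have h1 : cop α = ∑ x ∈ α.support, α x • Ltr x := by
    unfold cop
    rw [Finsupp.linearCombination_apply, Finsupp.sum]
  have h2 : cop (st α) = ∑ x ∈ α.support, (starRingEnd ℂ) (α x) • Ltr x⁻¹ := by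
    unfold st
    rw [map_sum]
    refine Finset.sum_congr rfl fun x _ => ?_
    rw [cop_single]
  rw [h1, h2, map_sum]
  refine Finset.sum_congr rfl fun x _ => ?_
  rw [ContinuousLinearMap.adjoint.map_smulₛₗ, adjoint_Ltr]

theorem rk_st (α : G →₀ ℂ) : rk (st α) = rk α := by
  unfold rk
  rw [← adjoint_cop]
  exact vd_range_adjoint _ (cop_eqv α)

open Classical in
/-- **Restriction to right cosets.** -/
theorem rk_right (H : Subgroup G) (α : G →₀ ℂ) (X : Finset G)
    (hX : ∀ x ∈ α.support, ∃ y ∈ X, x * y⁻¹ ∈ H) (D : Set G)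
    (hD : ∀ h ∈ H, ∀ x ∈ D, h * x ∈ D) :
    rk (α.filter (· ∈ D)) ≤ X.card * rk α := by
  set q : G → Quotient (QuotientGroup.rightRel H) := Quotient.mk _ with hq
  have hqe : ∀ x y : G, q x = q y ↔ y * x⁻¹ ∈ H := by
    intro x y
    rw [hq, Quotient.eq]
    exact QuotientGroup.rightRel_apply
  set J := α.support.image q with hJ
  let t : J → G := fun i => Quotient.out i.1
  have ht : ∀ i : J, q (t i) = i.1 := fun i => Quotient.out_eq _
  let c : α.support → J := fun x => ⟨q x, Finset.mem_image_of_mem _ x.2⟩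
  have hH : ∀ x : α.support, (x : G) * (t (c x))⁻¹ ∈ H := by
    intro x
    rw [← hqe]
    exact ht (c x)
  have hinj : ∀ i j : J, () = () → t i * (t j)⁻¹ ∈ H → i = j := by
    intro i j _ h
    have h1 : q (t j) = q (t i) := (hqe _ _).2 h
    rw [ht, ht] at h1
    exact Subtype.ext h1.symm
  have hcard : Fintype.card J ≤ X.card := by
    rw [Fintype.card_coe]
    have h1 : J ⊆ X.image q := by
      intro i hi
      obtain ⟨x, hx, rfl⟩ := Finset.mem_image.1 hi
      obtain ⟨y, hy, hxy⟩ := hX x hx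
      exact Finset.mem_image.2 ⟨y, hy, (hqe _ _).2 hxy⟩
    exact (Finset.card_le_card h1).trans Finset.card_image_le
  have h := rank_sel_le H t (fun _ => ()) hinj c (fun x : α.support => (x : G)) (fun _ => ())
    (fun _ => ()) (fun x => α x) (fun _ => rfl) hH X.card
    (fun _ => (Finset.card_le_univ _).trans hcard) (fun i => t i ∈ D)
  have e1 : op (fun x : α.support => (x : G)) (fun _ => ()) (fun _ => ()) (fun x => α x)
      = cop α := by
    ext f ⟨x, ⟨⟩⟩
    rw [op_apply, cop_apply, ← Finset.sum_attach α.support]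
    refine Finset.sum_congr rfl fun i _ => ?_
    rw [if_pos rfl]
  have hDiff : ∀ x : α.support, t (c x) ∈ D ↔ (x : G) ∈ D := by
    intro x
    constructor
    · intro h1
      have := hD _ (hH x) _ h1
      rwa [inv_mul_cancel_right] at this
    · intro h1
      have := hD _ (H.inv_mem (hH x)) _ h1
      rwa [mul_inv_rev, inv_inv, mul_assoc, inv_mul_cancel, mul_one] at this
  have e2 : op (fun x : α.support => (x : G)) (fun _ => ()) (fun _ => ())
      (fun x => if t (c x) ∈ D then α x else 0) = cop (α.filter (· ∈ D)) := by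
    ext f ⟨x, ⟨⟩⟩
    rw [op_apply, cop_apply' (α.filter (· ∈ D)) α.support
      (by rw [Finsupp.support_filter]; exact Finset.filter_subset _ _),
      ← Finset.sum_attach α.support]
    refine Finset.sum_congr rfl fun i _ => ?_
    rw [if_pos rfl]
    congr 1
    by_cases hi : (i : G) ∈ D
    · rw [if_pos ((hDiff i).2 hi), Finsupp.filter_apply_pos _ _ hi]
    · rw [if_neg (fun h' => hi ((hDiff i).1 h')), Finsupp.filter_apply_neg _ _ hi]
  rw [e1, e2] at h
  exact h

open Classical in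
/-- **Restriction to left cosets.** -/
theorem rk_left (H : Subgroup G) (α : G →₀ ℂ) (X : Finset G)
    (hX : ∀ x ∈ α.support, ∃ y ∈ X, y⁻¹ * x ∈ H) (D : Set G)
    (hD : ∀ h ∈ H, ∀ x ∈ D, x * h ∈ D) :
    rk (α.filter (· ∈ D)) ≤ X.card * rk α := by
  have h := rk_right H (st α) (X.image (·⁻¹)) (by
    intro x hx
    rw [mem_support_st] at hx
    obtain ⟨y, hy, hxy⟩ := hX _ hx
    refine ⟨y⁻¹, Finset.mem_image_of_mem _ hy, ?_⟩
    have := H.inv_mem hxy
    rw [mul_inv_rev, inv_inv, inv_inv] at this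
    rwa [inv_inv]) {x | x⁻¹ ∈ D} (by
    intro g hg x hx
    change (g * x)⁻¹ ∈ D
    rw [mul_inv_rev]
    exact hD _ (H.inv_mem hg) _ hx)
  have e : (st α).filter (· ∈ {x | x⁻¹ ∈ D}) = st (α.filter (· ∈ D)) := by
    ext y
    rw [st_apply]
    by_cases hy : y⁻¹ ∈ D
    · rw [Finsupp.filter_apply_pos _ _ (show y ∈ {x | x⁻¹ ∈ D} from hy),
        Finsupp.filter_apply_pos _ _ hy, st_apply]
    · rw [Finsupp.filter_apply_neg _ _ (show ¬ y ∈ {x | x⁻¹ ∈ D} from hy),
        Finsupp.filter_apply_neg _ _ hy, map_zero]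
  rw [e, rk_st, rk_st] at h
  refine h.trans (mul_le_mul_of_nonneg_right ?_ (rk_nonneg α))
  exact_mod_cast Finset.card_image_le

end

end Run7.h266.AZ
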