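import Pool.Agent.Run7.h266.AZ.Many

set_option autoImplicit false
set_option linter.unusedSectionVars false
set_option linter.unusedSimpArgs false

open scoped InnerProductSpace InnerProduct ENNReal

/-! The common kernel of several elements, and rows and columns of matrices. -/

namespace Run7.h266.AZ

open Pool.Agent.W649.ZL

universe u v w

section
variable {G : Type u} [Group G]

theorem numeric (n k m : ℕ) (hk0 : 0 < k) (hkn : k ≤ n) (d : ℝ) (hd0 : 0 ≤ d) (hd1 : d ≤ 1)
    (h1 : (n : ℝ) * k * d ≤ ((n : ℝ) - k) * m * (1 - d))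
    (h2 : (n * k + (n - k)) * m ≤ n * k * (n - 1)) :
    (n : ℝ) ^ 2 * d ≤ ((n : ℝ) - 1) * (n - k) := by
  have hn1 : 1 ≤ n := hk0.trans_le hkn
  have hnR : (1 : ℝ) ≤ n := by exact_mod_cast hn1
  have hkR : (0 : ℝ) < k := by exact_mod_cast hk0
  have hknR : (k : ℝ) ≤ n := by exact_mod_cast hkn
  have h3 : ((n : ℝ) * k + (n - k)) * m ≤ n * k * (n - 1) := by
    have h4 : (((n * k + (n - k)) * m : ℕ) : ℝ) ≤ ((n * k * (n - 1) : ℕ) : ℝ) := by
      exact_mod_cast h2
    rw [Nat.cast_mul, Nat.cast_mul, Nat.cast_add, Nat.cast_mul, Nat.cast_sub hkn,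
      Nat.cast_sub hn1] at h4
    push_cast at h4
    exact h4
  have hA : 0 < (n : ℝ) * k + (n - k) := by nlinarith
  have h4 : (n : ℝ) * k * (((n : ℝ) * k + (n - k)) * d)
      ≤ (n : ℝ) * k * (((n : ℝ) - k) * (n - 1) * (1 - d)) := by
    calc (n : ℝ) * k * (((n : ℝ) * k + (n - k)) * d)
        = ((n : ℝ) * k + (n - k)) * ((n : ℝ) * k * d) := by ring
      _ ≤ ((n : ℝ) * k + (n - k)) * (((n : ℝ) - k) * m * (1 - d)) :=
          mul_le_mul_of_nonneg_left h1 hA.le
      _ = ((n : ℝ) - k) * (1 - d) * (((n : ℝ) * k + (n - k)) * m) := by ring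
      _ ≤ ((n : ℝ) - k) * (1 - d) * (n * k * (n - 1)) :=
          mul_le_mul_of_nonneg_left h3 (mul_nonneg (by linarith) (by linarith))
      _ = _ := by ring
  have h5 := le_of_mul_le_mul_left h4 (by positivity)
  nlinarith

theorem st_ne_zero (α : G →₀ ℂ) (h : α ≠ 0) : st α ≠ 0 := by
  intro h1
  apply h
  rw [← st_st α, h1]
  ext x
  rw [st_apply]
  simp

/-- **The common kernel.** -/
theorem family (U : Submodule ℂ (EE G Unit)) [U.HasOrthogonalProjection]
    (hU : Pool.Agent.W649.ZL.Inv U) (hUc : IsClosed (U : Set (EE G Unit))) (k : ℕ) (hk0 : 0 < k)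
    (C : Fin k → (G →₀ ℂ)) (hC : LinearIndependent ℂ C) (hUC : ∀ f ∈ U, ∀ a, cop (st (C a)) f = 0)
    (S : Finset G) (hS : ∀ a, (C a).support ⊆ S) :
    k ≤ S.card ∧ ((∀ u ∈ quo S, IsOfFinOrder u →
      (S.card * k + (S.card - k)) * rep S u ≤ S.card * k * (S.card - 1)) →
      (S.card : ℝ) ^ 2 * vd U ≤ ((S.card : ℝ) - 1) * (S.card - k)) ∧
      (S.card : ℝ) * vd U ≤ S.card - k := by
  classical
  -- the space spanned by the vectors
  set e : Fin k → EE G Unit := fun a => cop (C a) (dl ((1 : G), ())) with he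
  have hli : LinearIndependent ℂ e := by
    rw [Fintype.linearIndependent_iff] at hC ⊢
    intro g hg
    apply hC g
    ext x
    have h1 := congrArg (fun F : EE G Unit => F (x, ())) hg
    simp only at h1
    rw [sum_apply_EE] at h1
    rw [Finsupp.finsetSum_apply]
    refine Eq.trans ?_ h1
    refine Finset.sum_congr rfl fun a _ => ?_
    change g a * C a x = g a * (cop (C a) (dl ((1 : G), ()))) (x, ())
    rw [cop_dl]
  set V : Submodule ℂ (EE G Unit) := Submodule.span ℂ (Set.range e) with hV
  have hfd : FiniteDimensional ℂ V := FiniteDimensional.span_of_finite ℂ (Set.finite_range e)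
  have hrank : Module.finrank ℂ V = k := by
    rw [hV, finrank_span_eq_card hli, Fintype.card_fin]
  have hVU : V ≤ Uᗮ := by
    rw [hV, Submodule.span_le]
    rintro _ ⟨a, rfl⟩
    change e a ∈ Uᗮ
    rw [Submodule.mem_orthogonal]
    intro f hf
    rw [he]
    simp only
    rw [← ContinuousLinearMap.adjoint_inner_left, adjoint_cop, hUC f hf a, inner_zero_left]
  have hVT : ∀ v ∈ V, ∀ x, x ∉ S → v (x, ()) = 0 := by
    intro v hv x hx
    induction hv using Submodule.span_induction with
    | mem v hv =>
      obtain ⟨a, rfl⟩ := hv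
      change cop (C a) (dl ((1 : G), ())) (x, ()) = 0
      rw [cop_dl]
      exact Finsupp.notMem_support_iff.1 (fun h => hx (hS a h))
    | zero => rfl
    | add v w _ _ h1 h2 =>
      change v (x, ()) + w (x, ()) = 0
      rw [h1, h2, add_zero]
    | smul c v _ h1 =>
      change c * v (x, ()) = 0
      rw [h1, mul_zero]
  have hkn : k ≤ S.card := by
    rw [← hrank]
    exact finrank_le S V hVT
  have hn1 : 1 ≤ S.card := hk0.trans_le hkn
  have hvd : vd U = ‖xi U‖ ^ 2 := by
    rw [vd_eq _ U (topcl_eq hUc)]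
    simp [xi]
  set d := vd U with hd
  have hd0 : 0 ≤ d := vd_nonneg _
  have hd1 : d ≤ 1 := by
    have := norm_sub_proj U hU 1
    rw [← hvd] at this
    nlinarith [sq_nonneg ‖(dl ((1 : G), ()) : EE G Unit) - U.starProjection (dl (1, ()))‖]
  have hkR : (0 : ℝ) < k := by exact_mod_cast hk0
  have hknR : (k : ℝ) ≤ S.card := by exact_mod_cast hkn
  have hnR : (1 : ℝ) ≤ S.card := by exact_mod_cast hn1
  refine ⟨hkn, ?_, ?_⟩
  · -- the most popular quotient
    intro hfin
    set m := (quo S).sup (rep S) with hm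
    have hmax := popularV U hU S V hVU hVT k hrank.symm hk0 m
      (fun u hu => Finset.le_sup (f := rep S) hu) d hvd
    by_cases hc : (S.card * k + (S.card - k)) * m ≤ S.card * k * (S.card - 1)
    · exact numeric S.card k m hk0 hkn d hd0 hd1 hmax hc
    · have hq : (quo S).Nonempty := by
        by_contra h
        rw [Finset.not_nonempty_iff_eq_empty] at h
        apply hc
        have : m = 0 := by rw [hm, h, Finset.sup_empty]; rfl
        rw [this, mul_zero]
        exact Nat.zero_le _
      obtain ⟨u, huq, hum⟩ := Finset.exists_mem_eq_sup (quo S) hq (rep S)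
      have hu : ¬ IsOfFinOrder u := by
        intro hu
        apply hc
        rw [hm, hum]
        exact hfin u huq hu
      -- the cosets
      set a0 : Fin k := ⟨0, hk0⟩
      have hC0 : C a0 ≠ 0 := hC.ne_zero a0
      have h1 := one_le_card_mul_rk (C a0) hC0 u hu (S.filter (fun x => u * x ∉ S))
        (fun x hx => chain S u hu x (hS a0 hx))
      have h2 : rk (C a0) ≤ 1 - d := by
        rw [← rk_st, rk_eq, hd]
        have : vd U ≤ vd (LinearMap.ker (cop (st (C a0)) : EE G Unit →ₗ[ℂ] EE G Unit)) := by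
          apply vd_mono
          intro f hf
          exact hUC f hf a0
        linarith
      have h3 : ((S.filter (fun x => u * x ∉ S)).card : ℝ) = S.card - m := by
        have h4 : (S.filter (fun x => u * x ∉ S)).card + m = S.card := by
          rw [hm, hum]
          unfold rep
          rw [add_comm]
          convert Finset.card_filter_add_card_filter_not (s := S) (fun x => u * x ∈ S)
        have : (((S.filter (fun x => u * x ∉ S)).card + m : ℕ) : ℝ) = S.card := by
          exact_mod_cast h4
        push_cast at this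
        linarith
      rw [h3] at h1
      have hm0 : (0 : ℝ) ≤ S.card - m := by
        rw [← h3]
        exact Nat.cast_nonneg _
      have h4 : 1 ≤ ((S.card : ℝ) - m) * (1 - d) :=
        h1.trans (mul_le_mul_of_nonneg_left h2 hm0)
      push Not at hc
      have h5 : (S.card : ℝ) * k * (S.card - 1) ≤ ((S.card : ℝ) * k + (S.card - k)) * m := by
        have h6 : ((S.card * k * (S.card - 1) : ℕ) : ℝ)
            ≤ (((S.card * k + (S.card - k)) * m : ℕ) : ℝ) := by
          exact_mod_cast hc.le
        rw [Nat.cast_mul, Nat.cast_mul, Nat.cast_mul, Nat.cast_add, Nat.cast_mul,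
          Nat.cast_sub hkn, Nat.cast_sub hn1] at h6
        push_cast at h6
        exact h6
      have hA : 0 < (S.card : ℝ) * k + (S.card - k) := by nlinarith
      have h6 : (S.card : ℝ) * k + (S.card - k)
          ≤ ((S.card : ℝ) * k + (S.card - k)) * (((S.card : ℝ) - m) * (1 - d)) := by
        nlinarith
      have h7 : ((S.card : ℝ) * k + (S.card - k)) * (((S.card : ℝ) - m) * (1 - d))
          ≤ (S.card : ℝ) ^ 2 * (1 - d) := by
        have h8 : ((S.card : ℝ) * k + (S.card - k)) * ((S.card : ℝ) - m) ≤ (S.card : ℝ) ^ 2 := by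
          nlinarith
        calc _ = (((S.card : ℝ) * k + (S.card - k)) * ((S.card : ℝ) - m)) * (1 - d) := by ring
          _ ≤ _ := mul_le_mul_of_nonneg_right h8 (by linarith)
      nlinarith
  · -- the bound for all groups
    have h1 := popularV U hU S V hVU hVT k hrank.symm hk0 S.card (by
      intro u _
      unfold rep
      exact Finset.card_filter_le _ _) d hvd
    have h2 : (S.card : ℝ) * ((k : ℝ) * d) ≤ S.card * (((S.card : ℝ) - k) * (1 - d)) := by
      calc (S.card : ℝ) * ((k : ℝ) * d) = (S.card : ℝ) * k * d := by ring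
        _ ≤ _ := h1
        _ = _ := by ring
    have h3 := le_of_mul_le_mul_left h2 (by linarith)
    nlinarith

end

end Run7.h266.AZ
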