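import Pool.Agent.Run7.h266.AZ.Two

set_option autoImplicit false
set_option linter.unusedSectionVars false
set_option linter.unusedSimpArgs false

open scoped InnerProductSpace InnerProduct ENNReal

/-! Elements supported in few cosets of a subgroup for which the analytic zero divisor conjecture
holds. -/

namespace Run7.h266.AZ

open Pool.Agent.W649.ZL

universe u

section
variable {G : Type u} [Group G]

/-- the nonzero elements of the group algebra of the subgroup act injectively on `ℓ²(G)` -/
def Good (H : Subgroup G) : Prop :=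
  ∀ α : G →₀ ℂ, (∀ x ∈ α.support, x ∈ H) → α ≠ 0 → Function.Injective (cop α)

theorem good_of_LI (H : Subgroup G) (hH : LI H) : Good H :=
  fun α hs h0 => LI_subgroup_injective H hH α hs h0

theorem Good.right {H : Subgroup G} (hH : Good H) (α : G →₀ ℂ) (y : G)
    (hs : ∀ x ∈ α.support, x * y⁻¹ ∈ H) (h0 : α ≠ 0) : Function.Injective (cop α) := by
  classical
  have hinj : Function.Injective (fun z : G => z * y⁻¹) := mul_left_injective y⁻¹
  set γ := α.mapDomain (fun z => z * y⁻¹) with hγ
  have h1 : Function.Injective (cop γ) := by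
    apply hH
    · intro x hx
      rw [hγ, Finsupp.mapDomain_support_of_injective hinj, Finset.mem_image] at hx
      obtain ⟨z, hz, rfl⟩ := hx
      exact hs z hz
    · intro h
      apply h0
      apply Finsupp.mapDomain_injective hinj
      rw [← hγ, h, Finsupp.mapDomain_zero]
  have h2 : cop α = (cop γ).comp (Ltr y) := by
    rw [hγ]
    clear_value γ
    clear hγ h1 hs h0
    induction α using Finsupp.induction_linear with
    | zero => rw [Finsupp.mapDomain_zero, map_zero, ContinuousLinearMap.zero_comp]
    | add a b ha hb =>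
      rw [Finsupp.mapDomain_add, map_add, map_add, ContinuousLinearMap.add_comp, ha, hb]
    | single t c =>
      rw [Finsupp.mapDomain_single, cop_single, cop_single, ContinuousLinearMap.smul_comp,
        ← Ltr_mul, inv_mul_cancel_right]
  rw [h2]
  exact h1.comp (Ltr_injective y)

theorem filter_ne_zero (α : G →₀ ℂ) (D : Set G) [DecidablePred (· ∈ D)] (x : G) (hx : α x ≠ 0)
    (hD : x ∈ D) : α.filter (· ∈ D) ≠ 0 := by
  intro h
  apply hx
  rw [← Finsupp.filter_apply_pos (· ∈ D) α hD, h]
  rfl

theorem rk_st_aux (α : G →₀ ℂ) (h : st α = 0) : (0 : G →₀ ℂ) = α := by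
  rw [← st_st α, h]
  ext x
  rw [st_apply]
  simp

/-- few right cosets -/
theorem Good.few_right {H : Subgroup G} (hH : Good H) (α : G →₀ ℂ) (h0 : α ≠ 0) (X : Finset G)
    (hX : ∀ x ∈ α.support, ∃ y ∈ X, x * y⁻¹ ∈ H) : 1 ≤ X.card * rk α := by
  classical
  obtain ⟨x, hx⟩ := Finsupp.support_nonempty_iff.2 h0
  have h := rk_right H α X hX {z | z * x⁻¹ ∈ H} (by
    intro h hh z hz
    change h * z * x⁻¹ ∈ H
    rw [mul_assoc]
    exact H.mul_mem hh hz)
  rw [rk_of_injective] at h
  · exact h
  · apply hH.right _ x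
    · intro z hz
      rw [Finsupp.support_filter, Finset.mem_filter] at hz
      exact hz.2
    · exact filter_ne_zero α _ x (Finsupp.mem_support_iff.1 hx) (by
        show x * x⁻¹ ∈ H
        rw [mul_inv_cancel]
        exact H.one_mem)

/-- few left cosets -/
theorem Good.few_left {H : Subgroup G} (hH : Good H) (α : G →₀ ℂ) (h0 : α ≠ 0) (X : Finset G)
    (hX : ∀ x ∈ α.support, ∃ y ∈ X, y⁻¹ * x ∈ H) : 1 ≤ X.card * rk α := by
  classical
  have h := hH.few_right (st α) (by
    intro h
    apply h0
    rw [← rk_st_aux α h]) (X.image (·⁻¹)) (by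
    intro x hx
    rw [mem_support_st] at hx
    obtain ⟨y, hy, hxy⟩ := hX _ hx
    refine ⟨y⁻¹, Finset.mem_image_of_mem _ hy, ?_⟩
    have := H.inv_mem hxy
    rw [mul_inv_rev, inv_inv, inv_inv] at this
    rwa [inv_inv])
  rw [rk_st] at h
  refine h.trans (mul_le_mul_of_nonneg_right ?_ (rk_nonneg α))
  exact_mod_cast Finset.card_image_le

end

end Run7.h266.AZ
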