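import Pool.Agent.Run7.h266.AZ.Mx

set_option autoImplicit false
set_option linter.unusedSectionVars false
set_option linter.unusedSimpArgs false

open scoped InnerProductSpace InnerProduct ENNReal

/-! A row with several independent entries, and a bound for the number of representations of the
quotients. -/

namespace Run7.h266.AZ

open Pool.Agent.W649.ZL

universe u v w

section
variable {G : Type u} [Group G]

theorem family_m (U : Submodule ℂ (EE G Unit)) [U.HasOrthogonalProjection]
    (hU : Pool.Agent.W649.ZL.Inv U) (hUc : IsClosed (U : Set (EE G Unit))) (k : ℕ) (hk0 : 0 < k)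
    (C : Fin k → (G →₀ ℂ)) (hC : LinearIndependent ℂ C) (hUC : ∀ f ∈ U, ∀ a, cop (st (C a)) f = 0)
    (S : Finset G) (hS : ∀ a, (C a).support ⊆ S) (m : ℕ) (hm : ∀ u ∈ quo S, rep S u ≤ m) :
    (S.card : ℝ) * k * vd U ≤ ((S.card : ℝ) - k) * m * (1 - vd U) := by
  classical
  set e : Fin k → EE G Unit := fun a => cop (C a) (dl ((1 : G), ())) with he
  have hli : LinearIndependent ℂ e := by
    rw [Fintype.linearIndependent_iff] at hC ⊢
    intro g hg
    apply hC g
    ext x
    have h1 := congrArg (fun F : EE G Unit => F (x, ())) hg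
    simp only at h1
    rw [sum_apply_EE] at h1
    rw [Finsupp.finsetSum_apply]
    refine Eq.trans ?_ h1
    refine Finset.sum_congr rfl fun a _ => ?_
    change g a * C a x = g a * (cop (C a) (dl ((1 : G), ()))) (x, ())
    rw [cop_dl]
  set V : Submodule ℂ (EE G Unit) := Submodule.span ℂ (Set.range e) with hV
  have hfd : FiniteDimensional ℂ V := FiniteDimensional.span_of_finite ℂ (Set.finite_range e)
  have hrank : Module.finrank ℂ V = k := by
    rw [hV, finrank_span_eq_card hli, Fintype.card_fin]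
  have hVU : V ≤ Uᗮ := by
    rw [hV, Submodule.span_le]
    rintro _ ⟨a, rfl⟩
    change e a ∈ Uᗮ
    rw [Submodule.mem_orthogonal]
    intro f hf
    rw [he]
    simp only
    rw [← ContinuousLinearMap.adjoint_inner_left, adjoint_cop, hUC f hf a, inner_zero_left]
  have hVT : ∀ v ∈ V, ∀ x, x ∉ S → v (x, ()) = 0 := by
    intro v hv x hx
    induction hv using Submodule.span_induction with
    | mem v hv =>
      obtain ⟨a, rfl⟩ := hv
      change cop (C a) (dl ((1 : G), ())) (x, ()) = 0
      rw [cop_dl]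
      exact Finsupp.notMem_support_iff.1 (fun h => hx (hS a h))
    | zero => rfl
    | add v w _ _ h1 h2 =>
      change v (x, ()) + w (x, ()) = 0
      rw [h1, h2, add_zero]
    | smul c v _ h1 =>
      change c * v (x, ()) = 0
      rw [h1, mul_zero]
  have hvd : vd U = ‖xi U‖ ^ 2 := by
    rw [vd_eq _ U (topcl_eq hUc)]
    simp [xi]
  exact popularV U hU S V hVU hVT k hrank.symm hk0 m hm (vd U) hvd

variable {K : Type v} {L : Type w} [Fintype K] [Fintype L] [DecidableEq K] [DecidableEq L]

/-- A row, and a bound for the number of representations. -/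
theorem row_m (A : K → L → (G →₀ ℂ)) (i : K) (k : ℕ) (hk0 : 0 < k) (c : Fin k → L)
    (hC : LinearIndependent ℂ (fun a => A i (c a))) (S : Finset G)
    (hS : ∀ a, (A i (c a)).support ⊆ S) (m : ℕ) (hm : ∀ u ∈ quo S, rep S u ≤ m) :
    (1 - rkM A) * ((S.card : ℝ) * k + ((S.card : ℝ) - k) * m) ≤ ((S.card : ℝ) - k) * m := by
  classical
  have hkn := (row_bound A i k hk0 c hC S hS).1
  set R : EE G Unit →L[ℂ] EE G L := (mo A).comp (elem (1 : G) i ()) with hR
  have hRe : Eqv R := Eqv.comp' (mo_eqv A) (elem_eqv _ _ _)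
  have h1 : 1 - rkM A ≤ vd (LinearMap.ker (R : EE G Unit →ₗ[ℂ] EE G L)) := by
    have h2 := vd_range R hRe
    rw [Fintype.card_unit, Nat.cast_one] at h2
    have h3 : vd (LinearMap.range (R : EE G Unit →ₗ[ℂ] EE G L)) ≤ rkM A :=
      rk_comp_right (mo A) (elem (1 : G) i ())
    linarith
  have h := family_m (LinearMap.ker (R : EE G Unit →ₗ[ℂ] EE G L)) (Inv_ker R hRe)
    (ContinuousLinearMap.isClosed_ker R) k hk0 (fun a => cj (A i (c a))) (cj_li _ hC) (by
      intro f hf a
      have hf' : R f = 0 := hf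
      rw [st_cj, ← entry A i (c a)]
      change (elem (1 : G) () (c a)) (R f) = 0
      rw [hf', map_zero]) S (fun a => by rw [cj_support]; exact hS a) m hm
  have hknR : (k : ℝ) ≤ S.card := by exact_mod_cast hkn
  have h4 : 0 ≤ (S.card : ℝ) * k + ((S.card : ℝ) - k) * m := by
    have h5 : (0 : ℝ) ≤ (S.card : ℝ) * k := by positivity
    have h6 : 0 ≤ ((S.card : ℝ) - k) * m := mul_nonneg (by linarith) (Nat.cast_nonneg m)
    linarith
  calc (1 - rkM A) * ((S.card : ℝ) * k + ((S.card : ℝ) - k) * m)
      ≤ vd (LinearMap.ker (R : EE G Unit →ₗ[ℂ] EE G L))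
        * ((S.card : ℝ) * k + ((S.card : ℝ) - k) * m) := mul_le_mul_of_nonneg_right h1 h4
    _ ≤ ((S.card : ℝ) - k) * m := by linarith

end

end Run7.h266.AZ
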