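import Pool.Agent.Run7.h266.AZ.Two

set_option autoImplicit false
set_option linter.unusedSectionVars false
set_option linter.unusedSimpArgs false

open scoped InnerProductSpace InnerProduct ENNReal

/-! Popular quotients for several vectors. -/

namespace Run7.h266.AZ

open Pool.Agent.W649.ZL

universe u v

section
variable {G : Type u} [Group G]
variable (U : Submodule ℂ (EE G Unit)) [U.HasOrthogonalProjection]

/-- The sum of the diagonal of the projection to a finite-dimensional space of vectors supported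
in `T`. -/
theorem sum_proj (T : Finset G) (V : Submodule ℂ (EE G Unit)) [FiniteDimensional ℂ V]
    (hVT : ∀ v ∈ V, ∀ x, x ∉ T → v (x, ()) = 0) :
    ∑ s ∈ T, ‖V.starProjection (dl (s, ()))‖ ^ 2 = Module.finrank ℂ V := by
  set e := stdOrthonormalBasis ℂ V with he
  have h1 : ∀ s : G, ‖V.starProjection (dl (s, ()))‖ ^ 2 = ∑ a, ‖(e a : EE G Unit) (s, ())‖ ^ 2 := by
    intro s
    have h2 := e.sum_sq_norm_inner_right (V.orthogonalProjectionOnto (dl (s, ())))
    have h3 : ‖V.starProjection (dl (s, ()))‖ = ‖V.orthogonalProjectionOnto (dl (s, ()))‖ := rfl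
    rw [h3, ← h2]
    refine Finset.sum_congr rfl fun a _ => ?_
    have h4 : ⟪e a, V.orthogonalProjectionOnto (dl (s, ()))⟫_ℂ
        = ⟪(e a : EE G Unit), dl (s, ())⟫_ℂ := by
      rw [Submodule.coe_inner]
      change ⟪(e a : EE G Unit), V.starProjection (dl (s, ()))⟫_ℂ = _
      rw [← Submodule.inner_starProjection_left_eq_right,
        Submodule.starProjection_eq_self_iff.2 (e a).2]
    rw [h4, inner_dl_right, RCLike.norm_conj]
  rw [Finset.sum_congr rfl fun s _ => h1 s, Finset.sum_comm]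
  have h5 : ∀ a, ∑ s ∈ T, ‖(e a : EE G Unit) (s, ())‖ ^ 2 = 1 := by
    intro a
    have h6 : ‖(e a : EE G Unit)‖ = 1 := by
      have := e.orthonormal.1 a
      exact this
    have h7 : ‖(e a : EE G Unit)‖ ^ 2 = ∑ s ∈ T, ‖(e a : EE G Unit) (s, ())‖ ^ 2 := by
      rw [norm_sq_tsum, ← Equiv.tsum_eq (Equiv.prodPUnit G).symm, tsum_eq_sum (s := T)]
      · rfl
      · intro x hx
        have : (e a : EE G Unit) ((Equiv.prodPUnit G).symm x) = 0 := hVT _ (e a).2 x hx
        rw [this]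
        simp
    rw [← h7, h6, one_pow]
  rw [Finset.sum_congr rfl fun a _ => h5 a]
  simp

/-- The energy inequality for several vectors. -/
theorem energyV (hU : Pool.Agent.W649.ZL.Inv U) (T : Finset G) (V : Submodule ℂ (EE G Unit))
    [FiniteDimensional ℂ V] (hV : V ≤ Uᗮ) (hVT : ∀ v ∈ V, ∀ x, x ∉ T → v (x, ()) = 0)
    (k : ℕ) (hk : k = Module.finrank ℂ V) (hk0 : 0 < k) :
    (T.card : ℝ) * k * (‖xi U‖ ^ 2) ^ 2
      ≤ ((T.card : ℝ) - k) * ∑ z ∈ T.offDiag, ‖xi U (z.2 * z.1⁻¹, ())‖ ^ 2 := by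
  classical
  set d : ℝ := ‖xi U‖ ^ 2 with hd
  have hd0 : 0 ≤ d := by positivity
  set P : G → EE G Unit := fun s => V.starProjection (dl (s, ())) with hP
  have hPV : ∀ s, P s ∈ V := fun s => Submodule.starProjection_apply_mem _ _
  set π : G → ℝ := fun s => ‖P s‖ ^ 2 with hπ
  have hπ0 : ∀ s, 0 ≤ π s := fun s => by positivity
  have hsum : ∑ s ∈ T, π s = k := by
    rw [hk]
    exact sum_proj T V hVT
  have hPs : ∀ s, P s (s, ()) = ((π s : ℝ) : ℂ) := by
    intro s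
    rw [← inner_dl_left (s, ()) (P s), hπ]
    have h1 : ⟪dl (s, ()), P s⟫_ℂ = ⟪P s, P s⟫_ℂ := by
      have h2 : ⟪dl (s, ()) - P s, P s⟫_ℂ = 0 :=
        Submodule.starProjection_inner_eq_zero _ _ (hPV s)
      rw [inner_sub_left, sub_eq_zero] at h2
      exact h2
    rw [h1, inner_self_eq_norm_sq_to_K]
    push_cast
    rfl
  have hPn : ∀ s, π s = ∑ t ∈ T, ‖P s (t, ())‖ ^ 2 := by
    intro s
    rw [hπ]
    simp only
    rw [norm_sq_tsum, ← Equiv.tsum_eq (Equiv.prodPUnit G).symm, tsum_eq_sum (s := T)]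
    · rfl
    · intro x hx
      have : P s ((Equiv.prodPUnit G).symm x) = 0 := hVT _ (hPV s) x hx
      rw [this]
      simp
  have hTne : T.Nonempty := by
    by_contra h
    rw [Finset.not_nonempty_iff_eq_empty] at h
    rw [h, Finset.sum_empty] at hsum
    have : (k : ℝ) ≠ 0 := by exact_mod_cast hk0.ne'
    exact this hsum.symm
  have hn1 : (1 : ℝ) ≤ T.card := by exact_mod_cast hTne.card_pos
  -- pointwise
  have h1 : ∀ s ∈ T, d * π s ≤ ∑ t ∈ T.filter (fun t => s ≠ t),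
      ‖xi U (t * s⁻¹, ())‖ * ‖P s (t, ())‖ := by
    intro s hs
    have h2 := relation U hU T (P s) (hV (hPV s)) (hVT _ (hPV s)) s
    rw [← Finset.add_sum_erase _ _ hs, mul_inv_cancel, xi_one, Complex.conj_ofReal, ← hd,
      hPs] at h2
    have h3 : ((π s : ℝ) : ℂ) * (d : ℂ) = -∑ t ∈ T.erase s,
        P s (t, ()) * (starRingEnd ℂ) (xi U (t * s⁻¹, ())) := eq_neg_of_add_eq_zero_left h2
    have h4 : π s * d ≤ ∑ t ∈ T.erase s, ‖P s (t, ())‖ * ‖xi U (t * s⁻¹, ())‖ := by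
      have h5 := congrArg norm h3
      rw [norm_mul, norm_neg, Complex.norm_real, Complex.norm_real, Real.norm_of_nonneg hd0,
        Real.norm_of_nonneg (hπ0 s)] at h5
      rw [h5]
      refine (norm_sum_le _ _).trans (le_of_eq ?_)
      refine Finset.sum_congr rfl fun t _ => ?_
      rw [norm_mul, RCLike.norm_conj]
    have h7 : T.erase s = T.filter (fun t => s ≠ t) := by
      ext t
      simp only [Finset.mem_erase, Finset.mem_filter]
      constructor
      · rintro ⟨a, b⟩; exact ⟨b, a.symm⟩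
      · rintro ⟨a, b⟩; exact ⟨b.symm, a⟩
    rw [h7] at h4
    calc d * π s = π s * d := by ring
      _ ≤ _ := h4
      _ = _ := Finset.sum_congr rfl fun t _ => by ring
  have h3' : T.offDiag = (T ×ˢ T).filter (fun z => z.1 ≠ z.2) := by
    ext z
    simp [Finset.mem_offDiag, Finset.mem_filter, Finset.mem_product, and_assoc]
  have h2 : d * k ≤ ∑ z ∈ T.offDiag, ‖xi U (z.2 * z.1⁻¹, ())‖ * ‖P z.1 (z.2, ())‖ := by
    rw [← hsum, Finset.mul_sum]
    refine (Finset.sum_le_sum h1).trans (le_of_eq ?_)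
    rw [h3', Finset.sum_filter, Finset.sum_product]
    refine Finset.sum_congr rfl fun s _ => ?_
    rw [Finset.sum_filter]
  have h3 := (Finset.sum_mul_sq_le_sq_mul_sq T.offDiag
    (fun z => ‖xi U (z.2 * z.1⁻¹, ())‖) (fun z => ‖P z.1 (z.2, ())‖))
  have h4 : (d * k) ^ 2 ≤ (∑ z ∈ T.offDiag, ‖xi U (z.2 * z.1⁻¹, ())‖ ^ 2)
      * ∑ z ∈ T.offDiag, ‖P z.1 (z.2, ())‖ ^ 2 :=
    (pow_le_pow_left₀ (by positivity) h2 2).trans h3
  -- the sum over the off-diagonal
  have h5 : ∑ z ∈ T.offDiag, ‖P z.1 (z.2, ())‖ ^ 2 + ∑ s ∈ T, π s ^ 2 = k := by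
    have h6 : (k : ℝ) = ∑ z ∈ T ×ˢ T, ‖P z.1 (z.2, ())‖ ^ 2 := by
      rw [← hsum, Finset.sum_product]
      exact Finset.sum_congr rfl fun s _ => hPn s
    have h7 : T ×ˢ T = T.diag ∪ T.offDiag := (Finset.diag_union_offDiag T).symm
    rw [h6, h7, Finset.sum_union (Finset.disjoint_diag_offDiag T), Finset.sum_diag, add_comm]
    congr 1
    refine Finset.sum_congr rfl fun s _ => ?_
    rw [hPs, Complex.norm_real, Real.norm_of_nonneg (hπ0 s)]
  have h6 : (k : ℝ) ^ 2 ≤ T.card * ∑ s ∈ T, π s ^ 2 := by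
    have := sq_sum_le_card_mul_sum_sq (s := T) (f := π)
    rwa [hsum] at this
  set E := ∑ z ∈ T.offDiag, ‖xi U (z.2 * z.1⁻¹, ())‖ ^ 2 with hE
  have hE0 : 0 ≤ E := Finset.sum_nonneg fun _ _ => by positivity
  set F := ∑ z ∈ T.offDiag, ‖P z.1 (z.2, ())‖ ^ 2 with hF
  have hkR : (0 : ℝ) < k := by exact_mod_cast hk0
  have h7 : (T.card : ℝ) * F ≤ ((T.card : ℝ) - k) * k := by nlinarith
  have h8 : (T.card : ℝ) * (d * k) ^ 2 ≤ ((T.card : ℝ) - k) * k * E := by
    calc (T.card : ℝ) * (d * k) ^ 2 ≤ T.card * (E * F) :=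
          mul_le_mul_of_nonneg_left h4 (by positivity)
      _ = E * (T.card * F) := by ring
      _ ≤ E * (((T.card : ℝ) - k) * k) := mul_le_mul_of_nonneg_left h7 hE0
      _ = _ := by ring
  have h9 : (k : ℝ) * ((T.card : ℝ) * k * d ^ 2) ≤ k * (((T.card : ℝ) - k) * E) := by
    calc (k : ℝ) * ((T.card : ℝ) * k * d ^ 2) = (T.card : ℝ) * (d * k) ^ 2 := by ring
      _ ≤ _ := h8
      _ = _ := by ring
  exact le_of_mul_le_mul_left h9 hkR

/-- a finite-dimensional space of vectors supported in `T` has dimension at most `|T|` -/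
theorem finrank_le (T : Finset G) (V : Submodule ℂ (EE G Unit)) [FiniteDimensional ℂ V]
    (hVT : ∀ v ∈ V, ∀ x, x ∉ T → v (x, ()) = 0) : Module.finrank ℂ V ≤ T.card := by
  have h1 := sum_proj T V hVT
  have h2 : ∑ s ∈ T, ‖V.starProjection (dl (s, ()))‖ ^ 2 ≤ ∑ s ∈ T, (1 : ℝ) := by
    refine Finset.sum_le_sum fun s _ => ?_
    have h3 := Submodule.norm_starProjection_apply_le V (dl (s, ()))
    rw [norm_dl] at h3
    exact pow_le_one₀ (norm_nonneg _) h3
  rw [h1] at h2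
  simp only [Finset.sum_const, nsmul_eq_mul, mul_one] at h2
  exact_mod_cast h2

/-- **Popular quotients** for several vectors. -/
theorem popularV (hU : Pool.Agent.W649.ZL.Inv U) (T : Finset G) (V : Submodule ℂ (EE G Unit))
    [FiniteDimensional ℂ V] (hV : V ≤ Uᗮ) (hVT : ∀ v ∈ V, ∀ x, x ∉ T → v (x, ()) = 0)
    (k : ℕ) (hk : k = Module.finrank ℂ V) (hk0 : 0 < k) (m : ℕ)
    (hm : ∀ u ∈ quo T, rep T u ≤ m) (d : ℝ) (hd : d = ‖xi U‖ ^ 2) :
    (T.card : ℝ) * k * d ≤ ((T.card : ℝ) - k) * m * (1 - d) := by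
  classical
  have h1 := energyV U hU T V hV hVT k hk hk0
  rw [← hd] at h1
  have hkn : (k : ℝ) ≤ T.card := by
    rw [hk]
    exact_mod_cast finrank_le T V hVT
  have h2 : ∑ z ∈ T.offDiag, ‖xi U (z.2 * z.1⁻¹, ())‖ ^ 2
      = ∑ u ∈ quo T, (rep T u : ℝ) * ‖xi U (u, ())‖ ^ 2 := by
    rw [← Finset.sum_fiberwise_of_maps_to (s := T.offDiag) (t := quo T) (g := fun z => z.2 * z.1⁻¹)
      (fun z hz => Finset.mem_image_of_mem _ hz)]
    refine Finset.sum_congr rfl fun u hu => ?_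
    have h3 : ∀ z ∈ T.offDiag.filter (fun z => z.2 * z.1⁻¹ = u),
        ‖xi U (z.2 * z.1⁻¹, ())‖ ^ 2 = ‖xi U (u, ())‖ ^ 2 := by
      intro z hz
      rw [(Finset.mem_filter.1 hz).2]
    rw [Finset.sum_congr rfl h3, Finset.sum_const, nsmul_eq_mul, rep_eq _ _ (quo_ne_one _ u hu)]
  have h3 : ∑ u ∈ quo T, ‖xi U (u, ())‖ ^ 2 ≤ d * (1 - d) := by
    have h4 := energy_sub (insert 1 (quo T)) (xi U)
    rw [Finset.sum_insert (fun h => quo_ne_one T 1 h rfl), ← hd, xi_one, ← hd, Complex.norm_real,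
      Real.norm_eq_abs, sq_abs] at h4
    nlinarith
  have h4 : ∑ u ∈ quo T, (rep T u : ℝ) * ‖xi U (u, ())‖ ^ 2 ≤ m * (d * (1 - d)) := by
    have h5 : ∀ u ∈ quo T, (rep T u : ℝ) * ‖xi U (u, ())‖ ^ 2 ≤ m * ‖xi U (u, ())‖ ^ 2 := by
      intro u hu
      apply mul_le_mul_of_nonneg_right _ (by positivity)
      exact_mod_cast hm u hu
    refine (Finset.sum_le_sum h5).trans ?_
    rw [← Finset.mul_sum]
    exact mul_le_mul_of_nonneg_left h3 (Nat.cast_nonneg m)
  have hd0 : 0 ≤ d := by rw [hd]; positivity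
  have hd1 : d ≤ 1 := by
    have := norm_sub_proj U hU 1
    rw [← hd] at this
    nlinarith [sq_nonneg ‖(dl ((1 : G), ()) : EE G Unit) - U.starProjection (dl (1, ()))‖]
  rw [h2] at h1
  have h5 : (T.card : ℝ) * k * d ^ 2 ≤ ((T.card : ℝ) - k) * (m * (d * (1 - d))) :=
    h1.trans (mul_le_mul_of_nonneg_left h4 (by linarith))
  rcases eq_or_lt_of_le hd0 with h6 | h6
  · rw [← h6]
    have : 0 ≤ ((T.card : ℝ) - k) * m := mul_nonneg (by linarith) (Nat.cast_nonneg m)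
    linarith
  · have h7 : d * ((T.card : ℝ) * k * d) ≤ d * (((T.card : ℝ) - k) * m * (1 - d)) := by
      calc d * ((T.card : ℝ) * k * d) = (T.card : ℝ) * k * d ^ 2 := by ring
        _ ≤ _ := h5
        _ = _ := by ring
    exact le_of_mul_le_mul_left h7 h6

end

end Run7.h266.AZ
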