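import Pool.Agent.Run7.h266.AZ.Mix
import Pool.Agent.Run7.h266.AZ.Few

set_option autoImplicit false
set_option linter.unusedSectionVars false
set_option linter.unusedSimpArgs false

/-! Matrices over the group algebra of `G` whose rows have their entries in few cosets of a
torsion-free commutative subgroup: the rank is at least the rank of the matrix of coefficients,
divided by the number of cosets. -/

namespace Run7.h266.AZ

open Pool.Agent.W649.ZL

universe u v w z

section
variable {G : Type u} {Γ : Type v} [Group G] [CommGroup Γ] (φ : Γ →* G)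

/-- translation by elements of the commutative group `Γ` -/
def actG : Γ →* Module.End ℂ (G → ℂ) where
  toFun γ :=
    { toFun := fun f x => f (φ γ * x)
      map_add' := fun _ _ => rfl
      map_smul' := fun _ _ => rfl }
  map_one' := by
    ext f x
    simp
  map_mul' a b := by
    ext f x
    have h : φ (a * b) * x = φ b * (φ a * x) := by
      rw [mul_comm a b, map_mul, mul_assoc]
    exact congrArg _ h

/-- the action of the group algebra of `Γ` on functions on `G` -/
noncomputable def rho : MonoidAlgebra ℂ Γ →ₐ[ℂ] Module.End ℂ (G → ℂ) :=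
  MonoidAlgebra.lift ℂ (Module.End ℂ (G → ℂ)) Γ (actG φ)

theorem rho_apply (β : MonoidAlgebra ℂ Γ) (f : G → ℂ) (x : G) :
    rho φ β f x = β.coeff.sum fun t a => a * f (φ t * x) := by
  unfold rho
  rw [MonoidAlgebra.lift_apply, Finsupp.sum, Finsupp.sum, LinearMap.sum_apply, Finset.sum_apply]
  rfl

theorem cramer {r : ℕ} (B : Matrix (Fin r) (Fin r) (MonoidAlgebra ℂ Γ)) (f : Fin r → (G → ℂ))
    (h : ∀ b, ∑ a, rho φ (B a b) (f a) = 0) (c : Fin r) : rho φ B.det (f c) = 0 := by
  have h1 : ∑ b, rho φ (B.adjugate b c) (∑ a, rho φ (B a b) (f a)) = 0 := by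
    refine Finset.sum_eq_zero fun b _ => ?_
    rw [h b, map_zero]
  have h2 : ∑ b, rho φ (B.adjugate b c) (∑ a, rho φ (B a b) (f a))
      = ∑ a, rho φ ((B * B.adjugate) a c) (f a) := by
    have h3 : ∀ b, rho φ (B.adjugate b c) (∑ a, rho φ (B a b) (f a))
        = ∑ a, rho φ (B a b * B.adjugate b c) (f a) := by
      intro b
      rw [map_sum]
      refine Finset.sum_congr rfl fun a _ => ?_
      rw [mul_comm, map_mul]
      rfl
    rw [Finset.sum_congr rfl fun b _ => h3 b, Finset.sum_comm]
    refine Finset.sum_congr rfl fun a _ => ?_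
    rw [Matrix.mul_apply, map_sum, LinearMap.sum_apply]
  rw [h1, Matrix.mul_adjugate] at h2
  rw [Finset.sum_eq_single c] at h2
  · rw [Matrix.smul_apply, Matrix.one_apply_eq, smul_eq_mul, mul_one] at h2
    exact h2.symm
  · intro a _ ha
    rw [Matrix.smul_apply, Matrix.one_apply_ne ha, smul_zero, map_zero]
    rfl
  · intro hc
    exact absurd (Finset.mem_univ c) hc

/-- the image in the group algebra of `G` -/
noncomputable def im (β : MonoidAlgebra ℂ Γ) : G →₀ ℂ := Finsupp.mapDomain φ β.coeff

theorem im_support (β : MonoidAlgebra ℂ Γ) : ∀ x ∈ (im φ β).support, x ∈ φ.range := by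
  classical
  intro x hx
  obtain ⟨y, _, rfl⟩ := Finset.mem_image.1 (Finsupp.mapDomain_support hx)
  exact ⟨y, rfl⟩

theorem im_sum (β : MonoidAlgebra ℂ Γ) (F : G → ℂ) :
    ((im φ β).sum fun t a => a * F t) = β.coeff.sum fun t a => a * F (φ t) := by
  unfold im
  rw [Finsupp.sum_mapDomain_index]
  · intro _; rw [zero_mul]
  · intro _ _ _; rw [add_mul]

theorem im_ne_zero (hφ : Function.Injective φ) (β : MonoidAlgebra ℂ Γ) (hβ : β ≠ 0) :
    im φ β ≠ 0 := by
  intro h
  apply hβ
  have h1 : β.coeff = 0 := by
    apply Finsupp.mapDomain_injective hφ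
    rw [Finsupp.mapDomain_zero]
    exact h
  ext x
  rw [h1]
  rfl

theorem iv_zero_iff (α : G →₀ ℂ) (h : iv α = 0) : α = 0 := by
  ext x
  have := iv_apply α x⁻¹
  rw [h, inv_inv] at this
  exact this.symm

/-- nonzero elements of the group algebra of `Γ` act regularly on square-summable functions -/
theorem rho_regular (hφ : Function.Injective φ) (hH : Good φ.range) (β : MonoidAlgebra ℂ Γ)
    (hβ : β ≠ 0) (f : EE G Unit) (hf : rho φ β (fun x => f (x, ())) = 0) : f = 0 := by
  classical
  have h0 := im_ne_zero φ hφ β hβ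
  have hinj : Function.Injective (cop (iv (im φ β))) := by
    apply hH
    · intro x hx
      rw [mem_support_iv] at hx
      have := im_support φ β _ hx
      simpa using φ.range.inv_mem this
    · intro h
      exact h0 (iv_zero_iff _ h)
  apply hinj
  rw [map_zero]
  ext ⟨x, ⟨⟩⟩
  rw [cop_apply' (iv (im φ β)) ((im φ β).support.map (Equiv.inv G).toEmbedding), Finset.sum_map]
  · have h1 := congrFun hf x
    rw [rho_apply, ← im_sum φ β (fun t => f (t * x, ())), Finsupp.sum] at h1
    refine Eq.trans ?_ h1
    refine Finset.sum_congr rfl fun t _ => ?_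
    simp only [Equiv.toEmbedding_apply, Equiv.inv_apply]
    rw [iv_apply, inv_inv]
  · intro y hy
    rw [mem_support_iv] at hy
    rw [Finset.mem_map]
    exact ⟨y⁻¹, hy, by simp⟩

end

section
variable {G : Type u} {Γ : Type v} [Group G] [CommGroup Γ] (φ : Γ →* G)
  {K : Type w} {L : Type z} [Fintype K] [Fintype L] [DecidableEq K] [DecidableEq L]

/-- **The rank is at least the size of a nonzero minor.** -/
theorem minor_le (hφ : Function.Injective φ) (hH : Good φ.range)
    (B : K → L → MonoidAlgebra ℂ Γ) {r : ℕ} (c : Fin r → K) (d : Fin r → L)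
    (hdet : (Matrix.of fun a b => B (c a) (d b)).det ≠ 0) :
    (r : ℝ) ≤ rkM (fun k l => im φ (B k l)) := by
  classical
  set M : K → L → (G →₀ ℂ) := fun k l => im φ (B k l) with hM
  set inc : EE G (Fin r) →L[ℂ] EE G K := ∑ a : Fin r, elem (1 : G) (c a) a with hinc
  set pr : EE G L →L[ℂ] EE G (Fin r) := ∑ b : Fin r, elem (1 : G) b (d b) with hpr
  have hincE : Eqv inc := by
    intro k f
    rw [hinc, sum_apply, sum_apply, tr_sum]
    refine Finset.sum_congr rfl fun a _ => elem_eqv _ _ _ _ _
  have hprE : Eqv pr := by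
    intro k f
    rw [hpr, sum_apply, sum_apply, tr_sum]
    refine Finset.sum_congr rfl fun a _ => elem_eqv _ _ _ _ _
  have hincA : ∀ (f : EE G (Fin r)) (y : G) (k : K),
      inc f (y, k) = ∑ a, if k = c a then f (y, a) else 0 := by
    intro f y k
    rw [hinc, sum_apply, sum_apply_EE]
    refine Finset.sum_congr rfl fun a _ => ?_
    change (if k = c a then f (1⁻¹ * y, a) else 0) = _
    rw [inv_one, one_mul]
  have hprA : ∀ (f : EE G L) (y : G) (b : Fin r), pr f (y, b) = f (y, d b) := by
    intro f y b
    rw [hpr, sum_apply, sum_apply_EE, Finset.sum_eq_single b]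
    · change (if b = b then f (1⁻¹ * y, d b) else 0) = _
      rw [if_pos rfl, inv_one, one_mul]
    · intro b' _ hb'
      change (if b = b' then f (1⁻¹ * y, d b') else 0) = _
      rw [if_neg (fun h => hb' h.symm)]
    · intro h; exact absurd (Finset.mem_univ _) h
  set X : EE G (Fin r) →L[ℂ] EE G (Fin r) := pr.comp ((mo M).comp inc) with hX
  have hXE : Eqv X := Eqv.comp' hprE (Eqv.comp' (mo_eqv M) hincE)
  have hXA : ∀ (f : EE G (Fin r)) (x : G) (b : Fin r),
      X f (x, b) = ∑ a, rho φ (B (c a) (d b)) (fun y => f (y, a)) x := by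
    intro f x b
    have h1 : X f (x, b) = pr (mo M (inc f)) (x, b) := rfl
    rw [h1, hprA, mo_apply]
    have h2 : ∀ a : Fin r, rho φ (B (c a) (d b)) (fun y => f (y, a)) x
        = ∑ t ∈ allS M, M (c a) (d b) t * f (t * x, a) := by
      intro a
      rw [rho_apply, ← im_sum φ (B (c a) (d b)) (fun t => f (t * x, a)), Finsupp.sum]
      apply Finset.sum_subset (sub_allS M (c a) (d b))
      intro t _ ht
      have : (im φ (B (c a) (d b))) t = 0 := Finsupp.notMem_support_iff.1 ht
      rw [this, zero_mul]
    rw [Finset.sum_congr rfl fun a _ => h2 a]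
    have h3 : ∀ k : K, ∑ t ∈ allS M, M k (d b) t * inc f (t * x, k)
        = ∑ a, if k = c a then ∑ t ∈ allS M, M k (d b) t * f (t * x, a) else 0 := by
      intro k
      have h4 : ∀ t ∈ allS M, M k (d b) t * inc f (t * x, k)
          = ∑ a, if k = c a then M k (d b) t * f (t * x, a) else 0 := by
        intro t _
        rw [hincA, Finset.mul_sum]
        refine Finset.sum_congr rfl fun a _ => ?_
        rw [mul_ite, mul_zero]
      rw [Finset.sum_congr rfl h4, Finset.sum_comm]
      refine Finset.sum_congr rfl fun a _ => ?_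
      by_cases hk : k = c a
      · simp only [if_pos hk]
      · simp only [if_neg hk, Finset.sum_const_zero]
    rw [Finset.sum_congr rfl fun k _ => h3 k, Finset.sum_comm]
    refine Finset.sum_congr rfl fun a _ => ?_
    rw [Finset.sum_ite_eq' Finset.univ (c a)]
    simp
  have hXinj : Function.Injective X := by
    rw [injective_iff_map_eq_zero]
    intro f hf
    have h1 : ∀ b, ∑ a, rho φ ((Matrix.of fun a b => B (c a) (d b)) a b) (fun y => f (y, a)) = 0 := by
      intro b
      funext x
      rw [Finset.sum_apply]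
      have := hXA f x b
      rw [hf] at this
      exact this.symm
    have h2 := cramer φ (Matrix.of fun a b => B (c a) (d b)) (fun a y => f (y, a)) h1
    have h3 : ∀ a, elem (1 : G) () a f = 0 := by
      intro a
      apply rho_regular φ hφ hH _ hdet
      have h4 : (fun x => elem (1 : G) () a f (x, ())) = fun y => f (y, a) := by
        funext x
        change (if () = () then f (1⁻¹ * x, a) else 0) = _
        rw [if_pos rfl, inv_one, one_mul]
      rw [h4]
      exact h2 a
    ext ⟨x, a⟩
    have h5 := congrArg (fun F : EE G Unit => F (x, ())) (h3 a)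
    have h6 : elem (1 : G) () a f (x, ()) = f (x, a) := by
      change (if () = () then f (1⁻¹ * x, a) else 0) = _
      rw [if_pos rfl, inv_one, one_mul]
    simp only at h5
    rw [h6] at h5
    exact h5
  have e1 : vd (LinearMap.range (X : EE G (Fin r) →ₗ[ℂ] EE G (Fin r))) = r := by
    rw [vd_range X hXE, vd_ker_of_injective X hXinj, sub_zero, Fintype.card_fin]
  have e2 := rk_comp_left pr ((mo M).comp inc) hprE (Eqv.comp' (mo_eqv M) hincE)
  have e3 := rk_comp_right (mo M) inc
  rw [← e1]
  exact e2.trans e3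

/-- **Rows in few cosets of a torsion-free commutative subgroup.** -/
theorem coset_minor (hφ : Function.Injective φ) (hH : Good φ.range) {κ : ℕ}
    (τ : K → Fin κ → G) (hτ : ∀ k i i', (τ k i)⁻¹ * τ k i' ∈ φ.range → i = i')
    (A : K → L → (G →₀ ℂ)) (B : K × Fin κ → L → MonoidAlgebra ℂ Γ)
    (hA : ∀ k l x, A k l x = ∑ i, im φ (B (k, i) l) ((τ k i)⁻¹ * x))
    {r : ℕ} (c : Fin r → K × Fin κ) (d : Fin r → L)
    (hdet : (Matrix.of fun a b => B (c a) (d b)).det ≠ 0) : (r : ℝ) ≤ κ * rkM A :=
  (minor_le φ hφ hH B c d hdet).trans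
    (mixing φ.range τ hτ A (fun c l => im φ (B c l)) (fun c l => im_support φ (B c l)) hA).2

end

end Run7.h266.AZ
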