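import Pool.Agent.Run7.h266.AZ.Minor

set_option autoImplicit false
set_option linter.unusedSectionVars false
set_option linter.unusedSimpArgs false

/-! The rank of a matrix over the group algebra of a torsion-free commutative subgroup is at most
`r` if all minors of size `r + 1` vanish. -/

namespace Run7.h266.AZ

open Pool.Agent.W649.ZL

universe u v w z

/-- If all minors of size `s + 1` vanish and `δ` is a minor of size `s`, then `δ B` is the product
of a matrix with `s` columns and a matrix with `s` rows. -/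
theorem factor {R : Type v} [CommRing R] {K : Type w} {L : Type z} (B : K → L → R) (s : ℕ)
    (c : Fin s → K) (d : Fin s → L)
    (hv : ∀ (c : Fin (s + 1) → K) (d : Fin (s + 1) → L),
      (Matrix.of fun a b => B (c a) (d b)).det = 0) :
    ∃ D : Fin s → L → R, ∀ k l,
      (Matrix.of fun a b => B (c a) (d b)).det * B k l = ∑ b, B k (d b) * D b l := by
  classical
  let N : K → L → Matrix (Fin (s + 1)) (Fin (s + 1)) R := fun k l =>
    Matrix.of fun i j => B (Fin.snoc (α := fun _ => K) c k i) (Fin.snoc (α := fun _ => L) d l j)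
  let Q : L → (Fin (s + 1) → R) → Matrix (Fin (s + 1)) (Fin (s + 1)) R := fun l v =>
    Matrix.of fun i j => Fin.lastCases (motive := fun _ => R) (v j)
      (fun a => B (c a) (Fin.snoc (α := fun _ => L) d l j)) i
  have hQ : ∀ k l v, (N k l).updateRow (Fin.last s) v = Q l v := by
    intro k l v
    ext i j
    refine Fin.lastCases ?_ (fun a => ?_) i
    · simp [Q]
    · rw [Matrix.updateRow_ne (Fin.castSucc_lt_last a).ne]
      simp [Q, N]
  have hδ : ∀ l, (Q l (Pi.single (Fin.last s) 1)).det
      = (Matrix.of fun a b => B (c a) (d b)).det := by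
    intro l
    rw [Matrix.det_succ_row _ (Fin.last s), Finset.sum_eq_single (Fin.last s)]
    · have h1 : Q l (Pi.single (Fin.last s) 1) (Fin.last s) (Fin.last s) = 1 := by simp [Q]
      have h2 : (Q l (Pi.single (Fin.last s) 1)).submatrix (Fin.last s).succAbove
          (Fin.last s).succAbove = Matrix.of fun a b => B (c a) (d b) := by
        ext a b
        simp [Q]
      rw [h1, h2, mul_one, Even.neg_one_pow ⟨_, rfl⟩, one_mul]
    · intro j _ hj
      have h1 : Q l (Pi.single (Fin.last s) 1) (Fin.last s) j = 0 := by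
        simp [Q, Pi.single_apply, hj]
      rw [h1, mul_zero, zero_mul]
    · intro h; exact absurd (Finset.mem_univ _) h
  refine ⟨fun b l => - (Q l (Pi.single (Fin.castSucc b) 1)).det, fun k l => ?_⟩
  have h0 : (N k l * (N k l).adjugate) (Fin.last s) (Fin.last s) = 0 := by
    rw [Matrix.mul_adjugate, hv, zero_smul]
    rfl
  rw [Matrix.mul_apply, Fin.sum_univ_castSucc] at h0
  have h1 : ∀ j, (N k l).adjugate j (Fin.last s) = (Q l (Pi.single j 1)).det := by
    intro j
    rw [Matrix.adjugate_apply, hQ]
  simp only [h1, hδ] at h0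
  have h2 : ∀ b : Fin s, N k l (Fin.last s) b.castSucc = B k (d b) := by
    intro b
    simp [N]
  have h3 : N k l (Fin.last s) (Fin.last s) = B k l := by
    simp [N]
  simp only [h2, h3] at h0
  rw [mul_comm]
  rw [add_comm] at h0
  rw [eq_neg_of_add_eq_zero_left h0, ← Finset.sum_neg_distrib]
  refine Finset.sum_congr rfl fun b _ => ?_
  rw [mul_neg]

section
variable {G : Type u} {Γ : Type v} [Group G] [CommGroup Γ] (φ : Γ →* G)
  {K : Type w} {L : Type z} [Fintype K] [Fintype L] [DecidableEq K] [DecidableEq L]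

theorem mo_rho (B : K → L → MonoidAlgebra ℂ Γ) (F : EE G K) (x : G) (l : L) :
    mo (fun k l => im φ (B k l)) F (x, l) = (∑ k, rho φ (B k l) (fun y => F (y, k))) x := by
  classical
  rw [mo_apply, Finset.sum_apply]
  refine Finset.sum_congr rfl fun k _ => ?_
  rw [rho_apply, ← im_sum φ (B k l) (fun t => F (t * x, k)), Finsupp.sum]
  symm
  apply Finset.sum_subset (sub_allS (fun k l => im φ (B k l)) k l)
  intro t _ ht
  have : (im φ (B k l)) t = 0 := Finsupp.notMem_support_iff.1 ht
  rw [this, zero_mul]

theorem mo_rho' (B : K → L → MonoidAlgebra ℂ Γ) (F : EE G K) (l : L) :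
    (fun y => mo (fun k l => im φ (B k l)) F (y, l)) = ∑ k, rho φ (B k l) (fun y => F (y, k)) := by
  funext x
  exact mo_rho φ B F x l

/-- **The rank is at most `r` if all minors of size `r + 1` vanish.** -/
theorem le_of_minors (hφ : Function.Injective φ) (hH : Good φ.range)
    (B : K → L → MonoidAlgebra ℂ Γ) (r : ℕ)
    (hv : ∀ (c : Fin (r + 1) → K) (d : Fin (r + 1) → L),
      (Matrix.of fun a b => B (c a) (d b)).det = 0) :
    rkM (fun k l => im φ (B k l)) ≤ r := by
  classical
  -- the largest size of a minor which is not zero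
  obtain ⟨s, hsr, c, d, hδ, hs⟩ : ∃ s ≤ r, ∃ (c : Fin s → K) (d : Fin s → L),
      (Matrix.of fun a b => B (c a) (d b)).det ≠ 0 ∧
      ∀ (c : Fin (s + 1) → K) (d : Fin (s + 1) → L),
        (Matrix.of fun a b => B (c a) (d b)).det = 0 := by
    have hex : ∃ t : ℕ, ∀ (c : Fin t → K) (d : Fin t → L),
      (Matrix.of fun a b => B (c a) (d b)).det = 0 := ⟨r + 1, hv⟩
    have h1 := Nat.find_spec hex
    have h2 : Nat.find hex ≠ 0 := by
      intro h0
      rw [h0] at h1
      have := h1 (fun i => i.elim0) (fun i => i.elim0)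
      rw [Matrix.det_isEmpty] at this
      exact one_ne_zero this
    obtain ⟨s, hs⟩ := Nat.exists_eq_succ_of_ne_zero h2
    have h3 : ¬ ∀ (c : Fin s → K) (d : Fin s → L),
        (Matrix.of fun a b => B (c a) (d b)).det = 0 := Nat.find_min hex (by omega)
    push Not at h3
    obtain ⟨c, d, hcd⟩ := h3
    have h4 : s + 1 ≤ r + 1 := by
      have := Nat.find_min' hex hv
      omega
    refine ⟨s, by omega, c, d, hcd, ?_⟩
    rw [hs] at h1
    exact h1
  obtain ⟨D, hD⟩ := factor B s c d hs
  set δ := (Matrix.of fun a b => B (c a) (d b)).det with hδd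
  set MB : K → L → (G →₀ ℂ) := fun k l => im φ (B k l) with hMB
  set C : K → Fin s → MonoidAlgebra ℂ Γ := fun k b => B k (d b) with hC
  set Δ : L → L → MonoidAlgebra ℂ Γ := fun l l' => if l = l' then δ else 0 with hΔ
  have hΔa : ∀ (F : EE G L) (l : L),
      (fun y => mo (fun k l => im φ (Δ k l)) F (y, l)) = rho φ δ (fun y => F (y, l)) := by
    intro F l
    rw [mo_rho' φ Δ F l, Finset.sum_eq_single l]
    · rw [hΔ]
      simp only [if_true]
    · intro l' _ hl'
      rw [hΔ]
      simp only [if_neg hl', map_zero]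
      rfl
    · intro h; exact absurd (Finset.mem_univ _) h
  have hfac : (mo (fun k l => im φ (Δ k l))).comp (mo MB)
      = (mo (fun b l => im φ (D b l))).comp (mo (fun k b => im φ (C k b))) := by
    ext F ⟨x, l⟩
    have h1 : ((mo (fun k l => im φ (Δ k l))).comp (mo MB)) F (x, l)
        = (fun y => mo (fun k l => im φ (Δ k l)) (mo MB F) (y, l)) x := rfl
    have h2 : ((mo (fun b l => im φ (D b l))).comp (mo (fun k b => im φ (C k b)))) F (x, l)
        = (fun y => mo (fun b l => im φ (D b l)) (mo (fun k b => im φ (C k b)) F) (y, l)) x := rfl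
    rw [h1, h2, hΔa, mo_rho' φ D _ l, mo_rho' φ B F l]
    refine congrFun ?_ x
    rw [map_sum]
    have h3 : ∀ b, rho φ (D b l) (fun y => mo (fun k b => im φ (C k b)) F (y, b))
        = ∑ k, rho φ (B k (d b) * D b l) (fun y => F (y, k)) := by
      intro b
      rw [mo_rho' φ C F b, map_sum]
      refine Finset.sum_congr rfl fun k _ => ?_
      rw [mul_comm, map_mul]
      rfl
    have h5 := Finset.sum_congr (rfl : (Finset.univ : Finset (Fin s)) = Finset.univ)
      (fun b _ => h3 b)
    refine Eq.trans ?_ h5.symm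
    rw [Finset.sum_comm]
    refine Finset.sum_congr rfl fun k _ => ?_
    have h4 : rho φ δ (rho φ (B k l) (fun y => F (y, k)))
        = rho φ (δ * B k l) (fun y => F (y, k)) := by
      rw [map_mul]
      rfl
    rw [h4, hD, map_sum, LinearMap.sum_apply]
  have hinj : Function.Injective (mo (fun k l => im φ (Δ k l))) := by
    rw [injective_iff_map_eq_zero]
    intro F hF
    have h3 : ∀ l, elem (1 : G) () l F = 0 := by
      intro l
      apply rho_regular φ hφ hH δ hδ
      have h4 : (fun x => elem (1 : G) () l F (x, ())) = fun y => F (y, l) := by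
        funext x
        change (if () = () then F (1⁻¹ * x, l) else 0) = _
        rw [if_pos rfl, inv_one, one_mul]
      rw [h4, ← hΔa F l, hF]
      rfl
    ext ⟨x, l⟩
    have h5 := congrArg (fun E : EE G Unit => E (x, ())) (h3 l)
    have h6 : elem (1 : G) () l F (x, ()) = F (x, l) := by
      change (if () = () then F (1⁻¹ * x, l) else 0) = _
      rw [if_pos rfl, inv_one, one_mul]
    simp only at h5
    rw [h6] at h5
    exact h5
  have hker : LinearMap.ker ((mo (fun k l => im φ (Δ k l))).comp (mo MB) : EE G K →ₗ[ℂ] EE G L)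
      = LinearMap.ker (mo MB : EE G K →ₗ[ℂ] EE G L) := by
    ext F
    rw [LinearMap.mem_ker, LinearMap.mem_ker]
    constructor
    · intro h
      apply hinj
      rw [map_zero]
      exact h
    · intro h
      change mo (fun k l => im φ (Δ k l)) (mo MB F) = 0
      have : mo MB F = 0 := h
      rw [this, map_zero]
  have e1 : rkM MB = vd (LinearMap.range
      ((mo (fun k l => im φ (Δ k l))).comp (mo MB) : EE G K →ₗ[ℂ] EE G L)) := by
    unfold rkM
    rw [vd_range _ (mo_eqv MB), vd_range _ (Eqv.comp' (mo_eqv _) (mo_eqv MB)), hker]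
  rw [e1, hfac]
  refine (rk_comp_left _ _ (mo_eqv _) (mo_eqv _)).trans ?_
  refine (vd_mono (le_top)).trans ?_
  rw [vd_top, Fintype.card_fin]
  exact_mod_cast hsr

end

end Run7.h266.AZ
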