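import Pool.Agent.Run7.h266.AZ.Few
import Mathlib.LinearAlgebra.FreeModule.PID

set_option autoImplicit false

/-! Torsion-free commutative groups are locally indicable. -/

namespace Run7.h266.AZ

open Pool.Agent.W649.ZL

universe u v

theorem fg_tf (N : Type v) [CommGroup N] [IsMulTorsionFree N] (hfg : Group.FG N) (x : N)
    (hx : x ≠ 1) : ∃ ψ : N →* Multiplicative ℤ, ψ x ≠ 1 := by
  have h1 : AddGroup.FG (Additive N) := GroupFG.iff_add_fg.1 hfg
  have h2 : Module.Finite ℤ (Additive N) := Module.Finite.iff_addGroup_fg.2 h1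
  have h3 : Module.Free ℤ (Additive N) := Module.free_of_finite_type_torsion_free'
  let b := Module.Free.chooseBasis ℤ (Additive N)
  have hx' : Additive.ofMul x ≠ 0 := hx
  have h4 : b.repr (Additive.ofMul x) ≠ 0 := by
    intro h
    exact hx' ((LinearEquiv.map_eq_zero_iff b.repr).1 h)
  obtain ⟨i, hi⟩ := Finsupp.ne_iff.1 h4
  let g : Additive N →+ ℤ := ((Finsupp.lapply i).comp b.repr.toLinearMap : Additive N →ₗ[ℤ] ℤ).toAddMonoidHom
  refine ⟨AddMonoidHom.toMultiplicativeRight g, ?_⟩
  intro h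
  apply hi
  exact h

theorem LI_tf {G : Type u} {Γ : Type v} [Group G] [CommGroup Γ] (φ : Γ →* G)
    (hφ : Function.Injective φ) (ht : ∀ γ : Γ, γ ≠ 1 → ¬ IsOfFinOrder γ) : LI φ.range := by
  intro K hK hne
  let e : Γ ≃* φ.range := MonoidHom.ofInjective hφ
  let K' : Subgroup Γ := K.map e.symm.toMonoidHom
  have hK' : Group.FG K' := (Group.fg_iff_subgroup_fg K').2 (by
    classical
    obtain ⟨S, hS⟩ := hK
    exact ⟨S.image e.symm.toMonoidHom, by rw [Finset.coe_image, ← MonoidHom.map_closure, hS]⟩)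
  have htf : IsMulTorsionFree Γ := isMulTorsionFree_iff_not_isOfFinOrder.2 (fun γ h => ht γ h)
  have htf' : IsMulTorsionFree K' := inferInstance
  obtain ⟨k, hk1⟩ := Subgroup.ne_bot_iff_exists_ne_one.1 hne
  let res : K →* K' :=
    { toFun := fun a => ⟨e.symm a.1, ⟨a.1, a.2, rfl⟩⟩
      map_one' := by
        apply Subtype.ext
        exact map_one e.symm
      map_mul' := fun a b => by
        apply Subtype.ext
        exact map_mul e.symm a.1 b.1 }
  obtain ⟨ψ, hψ⟩ := fg_tf K' hK' (res k) (by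
    intro h
    apply hk1
    have h1 : e.symm k.1 = 1 := congrArg Subtype.val h
    apply Subtype.ext
    exact (MulEquiv.map_eq_one_iff e.symm).1 h1)
  exact ⟨ψ.comp res, k, hψ⟩

end Run7.h266.AZ
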