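import Pool.Agent.Run7.h266.AZ.Minor2
import Pool.Agent.Run7.h266.AZ.Tf

set_option autoImplicit false
set_option linter.unusedSectionVars false
set_option linter.unusedSimpArgs false

/-! Submatrices, and the final form of the theorem on few cosets of a torsion-free commutative
subgroup. -/

namespace Run7.h266.AZ

open Pool.Agent.W649.ZL

universe u v w z w' z'

section
variable {G : Type u} [Group G] {K : Type w} {L : Type z} [Fintype K] [Fintype L]
  [DecidableEq K] [DecidableEq L] {K' : Type w'} {L' : Type z'} [Fintype K'] [Fintype L']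
  [DecidableEq K'] [DecidableEq L']

/-- the rank of a submatrix -/
theorem rkM_sub (A : K → L → (G →₀ ℂ)) (e : K' → K) (g : L' → L) :
    rkM (fun a b => A (e a) (g b)) ≤ rkM A := by
  classical
  set inc : EE G K' →L[ℂ] EE G K := ∑ a : K', elem (1 : G) (e a) a with hinc
  set pr : EE G L →L[ℂ] EE G L' := ∑ b : L', elem (1 : G) b (g b) with hpr
  have hincE : Eqv inc := by
    intro k f
    rw [hinc, sum_apply, sum_apply, tr_sum]
    refine Finset.sum_congr rfl fun a _ => elem_eqv _ _ _ _ _
  have hprE : Eqv pr := by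
    intro k f
    rw [hpr, sum_apply, sum_apply, tr_sum]
    refine Finset.sum_congr rfl fun a _ => elem_eqv _ _ _ _ _
  have hincA : ∀ (f : EE G K') (y : G) (k : K),
      inc f (y, k) = ∑ a, if k = e a then f (y, a) else 0 := by
    intro f y k
    rw [hinc, sum_apply, sum_apply_EE]
    refine Finset.sum_congr rfl fun a _ => ?_
    change (if k = e a then f (1⁻¹ * y, a) else 0) = _
    rw [inv_one, one_mul]
  have hprA : ∀ (f : EE G L) (y : G) (b : L'), pr f (y, b) = f (y, g b) := by
    intro f y b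
    rw [hpr, sum_apply, sum_apply_EE, Finset.sum_eq_single b]
    · change (if b = b then f (1⁻¹ * y, g b) else 0) = _
      rw [if_pos rfl, inv_one, one_mul]
    · intro b' _ hb'
      change (if b = b' then f (1⁻¹ * y, g b') else 0) = _
      rw [if_neg (fun h => hb' h.symm)]
    · intro h; exact absurd (Finset.mem_univ _) h
  have hfac : mo (fun a b => A (e a) (g b)) = pr.comp ((mo A).comp inc) := by
    ext f ⟨x, b⟩
    have h1 : (pr.comp ((mo A).comp inc)) f (x, b) = pr (mo A (inc f)) (x, b) := rfl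
    rw [h1, hprA, mo_apply, mo_apply]
    have h2 : ∀ a : K', ∑ t ∈ allS (fun a b => A (e a) (g b)), A (e a) (g b) t * f (t * x, a)
        = ∑ t ∈ allS A, A (e a) (g b) t * f (t * x, a) := by
      intro a
      have h20 : ∑ t ∈ allS (fun a b => A (e a) (g b)), A (e a) (g b) t * f (t * x, a)
          = ∑ t ∈ (A (e a) (g b)).support, A (e a) (g b) t * f (t * x, a) := by
        symm
        apply Finset.sum_subset (sub_allS (fun a b => A (e a) (g b)) a b)
        intro t _ ht
        rw [Finsupp.notMem_support_iff.1 ht, zero_mul]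
      rw [h20]
      apply Finset.sum_subset (sub_allS A (e a) (g b))
      intro t _ ht
      rw [Finsupp.notMem_support_iff.1 ht, zero_mul]
    rw [Finset.sum_congr rfl fun a _ => h2 a]
    have h3 : ∀ k : K, ∑ t ∈ allS A, A k (g b) t * inc f (t * x, k)
        = ∑ a, if k = e a then ∑ t ∈ allS A, A k (g b) t * f (t * x, a) else 0 := by
      intro k
      have h4 : ∀ t ∈ allS A, A k (g b) t * inc f (t * x, k)
          = ∑ a, if k = e a then A k (g b) t * f (t * x, a) else 0 := by
        intro t _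
        rw [hincA, Finset.mul_sum]
        refine Finset.sum_congr rfl fun a _ => ?_
        rw [mul_ite, mul_zero]
      rw [Finset.sum_congr rfl h4, Finset.sum_comm]
      refine Finset.sum_congr rfl fun a _ => ?_
      by_cases hk : k = e a
      · simp only [if_pos hk]
      · simp only [if_neg hk, Finset.sum_const_zero]
    have h5 := Finset.sum_congr (rfl : (Finset.univ : Finset K) = Finset.univ)
      (fun k _ => h3 k)
    refine Eq.trans ?_ h5.symm
    refine Eq.trans ?_ Finset.sum_comm
    refine Finset.sum_congr rfl fun a _ => ?_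
    rw [Finset.sum_ite_eq' Finset.univ (e a)]
    simp
  unfold rkM
  rw [hfac]
  exact (rk_comp_left pr ((mo A).comp inc) hprE (Eqv.comp' (mo_eqv A) hincE)).trans
    (rk_comp_right (mo A) inc)

variable {Γ : Type v} [CommGroup Γ] (φ : Γ →* G)

/-- **Few cosets of a torsion-free commutative subgroup: the lower bound.** -/
theorem lower (hφ : Function.Injective φ) (ht : ∀ γ : Γ, γ ≠ 1 → ¬ IsOfFinOrder γ)
    (A : K → L → (G →₀ ℂ)) (e : K' → K) (g : L' → L) {κ : ℕ} (τ : K' → Fin κ → G)
    (hτ : ∀ k i i', (τ k i)⁻¹ * τ k i' ∈ φ.range → i = i')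
    (B : K' × Fin κ → L' → MonoidAlgebra ℂ Γ)
    (hA : ∀ k l x, A (e k) (g l) x = ∑ i, im φ (B (k, i) l) ((τ k i)⁻¹ * x))
    {r : ℕ} (c : Fin r → K' × Fin κ) (d : Fin r → L')
    (hdet : (Matrix.of fun a b => B (c a) (d b)).det ≠ 0) : (r : ℝ) ≤ κ * rkM A := by
  have h1 := coset_minor φ hφ (good_of_LI _ (LI_tf φ hφ ht)) τ hτ
    (fun a b => A (e a) (g b)) B hA c d hdet
  have h2 := rkM_sub A e g
  exact h1.trans (mul_le_mul_of_nonneg_left h2 (Nat.cast_nonneg _))

/-- **Few cosets of a torsion-free commutative subgroup: the upper bound.** -/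
theorem upper (hφ : Function.Injective φ) (ht : ∀ γ : Γ, γ ≠ 1 → ¬ IsOfFinOrder γ)
    (A : K → L → (G →₀ ℂ)) {κ : ℕ} (τ : K → Fin κ → G)
    (hτ : ∀ k i i', (τ k i)⁻¹ * τ k i' ∈ φ.range → i = i')
    (B : K × Fin κ → L → MonoidAlgebra ℂ Γ)
    (hA : ∀ k l x, A k l x = ∑ i, im φ (B (k, i) l) ((τ k i)⁻¹ * x)) (r : ℕ)
    (hv : ∀ (c : Fin (r + 1) → K × Fin κ) (d : Fin (r + 1) → L),
      (Matrix.of fun a b => B (c a) (d b)).det = 0) : rkM A ≤ r :=
  ((mixing φ.range τ hτ A (fun c l => im φ (B c l)) (fun c l => im_support φ (B c l)) hA).1).trans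
    (le_of_minors φ hφ (good_of_LI _ (LI_tf φ hφ ht)) B r hv)

end

end Run7.h266.AZ
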