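import Pool.Agent.Run7.h266.AZ.Mx

set_option autoImplicit false
set_option linter.unusedSectionVars false
set_option linter.unusedSimpArgs false

open scoped InnerProductSpace InnerProduct ENNReal

/-! Triangular patterns, and splitting of rows into cosets. -/

namespace Run7.h266.AZ

open Pool.Agent.W649.ZL

universe u v w

section
variable {G : Type u} {K : Type v} {L : Type w} [Group G] [Fintype K] [Fintype L]
  [DecidableEq K] [DecidableEq L]

theorem rk_iv_cj (α : G →₀ ℂ) : rk (iv α) = rk (cj α) := by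
  rw [← st_cj, rk_st]

/-- **Triangular patterns.** -/
theorem triangular (A : K → L → (G →₀ ℂ)) (p : ℕ) (i : Fin p → K) (j : Fin p → L)
    (h0 : ∀ a b, a < b → A (i a) (j b) = 0) : ∑ a, rk (iv (A (i a) (j a))) ≤ rkM A := by
  classical
  set T := mo A with hT
  have hTe : Eqv T := mo_eqv A
  -- partial operators
  let X : ℕ → (EE G K →L[ℂ] EE G K) := fun q =>
    ∑ a : Fin p, if (a : ℕ) < q then elem (1 : G) (i a) (i a) else 0
  let W : ℕ → Submodule ℂ (EE G L) := fun q =>
    ⨆ a : {a : Fin p // (a : ℕ) < q},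
      LinearMap.range ((T.comp (elem (1 : G) (i a.1) ()) : EE G Unit →L[ℂ] EE G L) :
        EE G Unit →ₗ[ℂ] EE G L)
  have hWinv : ∀ q, Pool.Agent.W649.ZL.Inv (W q) := by
    intro q k f hf
    induction hf using Submodule.iSup_induction' with
    | mem a f hf =>
      obtain ⟨g, rfl⟩ := hf
      apply Submodule.mem_iSup_of_mem a
      refine ⟨tr k g, ?_⟩
      change T (elem (1 : G) (i a.1) () (tr k g)) = tr k (T (elem (1 : G) (i a.1) () g))
      rw [elem_eqv, hTe]
    | zero => rw [tr_zero]; exact Submodule.zero_mem _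
    | add f g _ _ h1 h2 => rw [tr_add]; exact Submodule.add_mem _ h1 h2
  have key : ∀ q, q ≤ p → ∑ a : {a : Fin p // (a : ℕ) < q}, rk (iv (A (i a.1) (j a.1)))
      ≤ vd (W q) := by
    intro q
    induction q with
    | zero =>
      intro _
      have : IsEmpty {a : Fin p // (a : ℕ) < 0} := ⟨fun a => absurd a.2 (by omega)⟩
      rw [Finset.univ_eq_empty, Finset.sum_empty]
      exact vd_nonneg _
    | succ q ih =>
      intro hq
      have ih' := ih (by omega)
      set b : Fin p := ⟨q, by omega⟩ with hb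
      -- rank-nullity for the coordinate `j b`
      set Y : EE G L →L[ℂ] EE G Unit := elem (1 : G) () (j b) with hY
      have hc : IsClosed (((W (q + 1)).topologicalClosure : Submodule ℂ (EE G L)) :
        Set (EE G L)) := Submodule.isClosed_topologicalClosure _
      have h1 := rank_nullity Y (elem_eqv _ _ _) (hWinv (q + 1)).topologicalClosure hc
      rw [vd_closure] at h1
      have h2 : vd (W q) ≤ vd ((W (q + 1)).topologicalClosure ⊓
          LinearMap.ker (Y : EE G L →ₗ[ℂ] EE G Unit)) := by
        apply vd_mono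
        apply iSup_le
        rintro ⟨a, ha⟩
        rintro _ ⟨f, rfl⟩
        refine ⟨?_, ?_⟩
        · apply Submodule.le_topologicalClosure
          exact Submodule.mem_iSup_of_mem (⟨a, by omega⟩ : {a : Fin p // (a : ℕ) < q + 1}) ⟨f, rfl⟩
        · change Y (T (elem (1 : G) (i a) () f)) = 0
          have h3 := congrArg (fun Z : EE G Unit →L[ℂ] EE G Unit => Z f) (entry A (i a) (j b))
          have h4 : A (i a) (j b) = 0 := h0 a b (by
            rw [hb]
            exact ha)
          have h5 : iv (0 : G →₀ ℂ) = 0 := by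
            ext x
            rw [iv_apply]
            rfl
          rw [h4, h5, map_zero] at h3
          exact h3
      have h3 : rk (iv (A (i b) (j b))) ≤ vd ((W (q + 1)).topologicalClosure.map
          (Y : EE G L →ₗ[ℂ] EE G Unit)) := by
        unfold rk
        apply vd_mono
        rintro _ ⟨f, rfl⟩
        refine ⟨T (elem (1 : G) (i b) () f), ?_, ?_⟩
        · apply Submodule.le_topologicalClosure
          exact Submodule.mem_iSup_of_mem (⟨b, by rw [hb]; exact Nat.lt_succ_self q⟩ :
            {a : Fin p // (a : ℕ) < q + 1}) ⟨f, rfl⟩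
        · exact congrArg (fun Z : EE G Unit →L[ℂ] EE G Unit => Z f) (entry A (i b) (j b))
      have h4 : ∑ a : {a : Fin p // (a : ℕ) < q + 1}, rk (iv (A (i a.1) (j a.1)))
          = ∑ a : {a : Fin p // (a : ℕ) < q}, rk (iv (A (i a.1) (j a.1)))
            + rk (iv (A (i b) (j b))) := by
        rw [← Finset.sum_subtype (Finset.univ.filter (fun a : Fin p => (a : ℕ) < q + 1))
          (fun a => by simp) (fun a => rk (iv (A (i a) (j a)))),
          ← Finset.sum_subtype (Finset.univ.filter (fun a : Fin p => (a : ℕ) < q))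
          (fun a => by simp) (fun a => rk (iv (A (i a) (j a))))]
        have h5 : Finset.univ.filter (fun a : Fin p => (a : ℕ) < q + 1)
            = insert b (Finset.univ.filter (fun a : Fin p => (a : ℕ) < q)) := by
          ext a
          simp only [Finset.mem_filter, Finset.mem_univ, true_and, Finset.mem_insert, hb,
            Fin.ext_iff]
          omega
        rw [h5, Finset.sum_insert (by simp [hb]), add_comm]
      rw [h4]
      linarith
  have h1 := key p le_rfl
  have h2 : ∑ a : {a : Fin p // (a : ℕ) < p}, rk (iv (A (i a.1) (j a.1)))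
      = ∑ a, rk (iv (A (i a) (j a))) := by
    rw [← Finset.sum_subtype Finset.univ (fun a => by simp)
      (fun a => rk (iv (A (i a) (j a))))]
  rw [h2] at h1
  refine h1.trans ?_
  unfold rkM
  apply vd_mono
  apply iSup_le
  rintro ⟨a, ha⟩
  rintro _ ⟨f, rfl⟩
  exact ⟨elem (1 : G) (i a) () f, rfl⟩

variable {κ : ℕ}

/-- the matrix with the rows `∑ τ (k, i) B (k, i)` -/
theorem mix_op (H : Subgroup G) (τ : K → Fin κ → G) (A : K → L → (G →₀ ℂ))
    (B : K × Fin κ → L → (G →₀ ℂ)) (hA : ∀ k l x, A k l x = ∑ i, B (k, i) l ((τ k i)⁻¹ * x)) :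
    mo A = op (fun i : (allS B) × (K × Fin κ) × L => (τ i.2.1.1 i.2.1.2 * (i.1 : G))⁻¹)
      (fun i => i.2.1.1) (fun i => i.2.2) (coefT (allS B) B) := by
  classical
  ext f ⟨x, l⟩
  rw [mo_apply, op_apply, Fintype.sum_prod_type]
  unfold coefT
  have h1 : ∀ s : allS B, ∑ y : (K × Fin κ) × L, B y.1 y.2 s *
      (if l = y.2 then f (((τ y.1.1 y.1.2 * (s : G))⁻¹)⁻¹ * x, y.1.1) else 0)
      = ∑ c : K × Fin κ, B c l s * f (τ c.1 c.2 * s * x, c.1) := by
    intro s
    rw [Fintype.sum_prod_type]
    refine Finset.sum_congr rfl fun c _ => ?_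
    rw [Finset.sum_eq_single l]
    · rw [if_pos rfl, inv_inv]
    · intro b _ hb
      rw [if_neg (fun h => hb h.symm), mul_zero]
    · intro h; exact absurd (Finset.mem_univ _) h
  refine Eq.trans ?_ (Finset.sum_congr rfl fun s _ => h1 s).symm
  have h5 : ∑ s : allS B, ∑ c : K × Fin κ, B c l s * f (τ c.1 c.2 * s * x, c.1)
      = ∑ k, ∑ i, ∑ s : allS B, B (k, i) l s * f (τ k i * s * x, k) := by
    rw [Finset.sum_comm, Fintype.sum_prod_type]
  refine Eq.trans ?_ h5.symm
  refine Finset.sum_congr rfl fun k _ => ?_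
  -- both sides as sums over a large finite set
  set S : Finset G := allS A ∪ Finset.univ.biUnion
    (fun i : Fin κ => (allS B).image (fun s => τ k i * s)) with hS
  have h2 : ∑ t ∈ allS A, A k l t * f (t * x, k) = ∑ t ∈ S, A k l t * f (t * x, k) := by
    apply Finset.sum_subset Finset.subset_union_left
    intro t _ ht
    rw [Finsupp.notMem_support_iff.1 (fun h => ht (sub_allS A k l h)), zero_mul]
  rw [h2]
  have h3 : ∀ t ∈ S, A k l t * f (t * x, k)
      = ∑ i, B (k, i) l ((τ k i)⁻¹ * t) * f (t * x, k) := by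
    intro t _
    rw [hA, Finset.sum_mul]
  rw [Finset.sum_congr rfl h3, Finset.sum_comm]
  refine Finset.sum_congr rfl fun i _ => ?_
  rw [Finset.sum_coe_sort (allS B) (fun s => B (k, i) l s * f (τ k i * s * x, k))]
  have h4 : ∑ s ∈ allS B, B (k, i) l s * f (τ k i * s * x, k)
      = ∑ t ∈ (allS B).image (fun s => τ k i * s), B (k, i) l ((τ k i)⁻¹ * t) * f (t * x, k) := by
    rw [Finset.sum_image (fun a _ b _ h => mul_left_cancel h)]
    refine Finset.sum_congr rfl fun s _ => ?_
    rw [inv_mul_cancel_left]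
  rw [h4]
  symm
  apply Finset.sum_subset
  · intro t ht
    rw [hS]
    exact Finset.mem_union_right _ (Finset.mem_biUnion.2 ⟨i, Finset.mem_univ i, ht⟩)
  · intro t _ ht
    have : B (k, i) l ((τ k i)⁻¹ * t) = 0 := by
      by_contra hne
      apply ht
      refine Finset.mem_image.2 ⟨(τ k i)⁻¹ * t, sub_allS B (k, i) l
        (Finsupp.mem_support_iff.2 hne), ?_⟩
      rw [mul_inv_cancel_left]
    rw [this, zero_mul]

/-- **Mixing rows in distinct cosets.** -/
theorem mixing (H : Subgroup G) (τ : K → Fin κ → G)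
    (hτ : ∀ k i i', (τ k i)⁻¹ * τ k i' ∈ H → i = i') (A : K → L → (G →₀ ℂ))
    (B : K × Fin κ → L → (G →₀ ℂ)) (hB : ∀ c l, ∀ x ∈ (B c l).support, x ∈ H)
    (hA : ∀ k l x, A k l x = ∑ i, B (k, i) l ((τ k i)⁻¹ * x)) :
    rkM A ≤ rkM B ∧ rkM B ≤ κ * rkM A := by
  classical
  have hop := mix_op H τ A B hA
  have hmem : ∀ s ∈ allS B, s ∈ H := by
    intro s hs
    unfold allS at hs
    obtain ⟨c, _, hs⟩ := Finset.mem_biUnion.1 hs
    obtain ⟨l, _, hs⟩ := Finset.mem_biUnion.1 hs
    exact hB c l s hs
  refine ⟨?_, ?_⟩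
  · -- factorisation
    unfold rkM
    set Δ : EE G K →L[ℂ] EE G (K × Fin κ) :=
      ∑ c : K × Fin κ, elem ((τ c.1 c.2)⁻¹) c c.1 with hΔ
    have hΔa : ∀ (f : EE G K) (y : G) (c : K × Fin κ),
        Δ f (y, c) = f (τ c.1 c.2 * y, c.1) := by
      intro f y c
      rw [hΔ, sum_apply, sum_apply_EE, Finset.sum_eq_single c]
      · change (if c = c then f (((τ c.1 c.2)⁻¹)⁻¹ * y, c.1) else 0) = _
        rw [if_pos rfl, inv_inv]
      · intro c' _ hc'
        change (if c = c' then f (((τ c'.1 c'.2)⁻¹)⁻¹ * y, c'.1) else 0) = _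
        rw [if_neg (fun h => hc' h.symm)]
      · intro h; exact absurd (Finset.mem_univ _) h
    have hfac : mo A = (mo B).comp Δ := by
      rw [hop]
      ext f ⟨x, l⟩
      have h1 : ((mo B).comp Δ) f (x, l) = mo B (Δ f) (x, l) := rfl
      rw [h1]
      unfold mo
      rw [op_apply, op_apply]
      refine Finset.sum_congr rfl fun i _ => ?_
      congr 1
      split_ifs
      · rw [hΔa, inv_inv, inv_inv, mul_assoc]
      · rfl
    rw [hfac]
    exact rk_comp_right _ _
  · unfold rkM
    have h := rank_opR_le H (fun c : K × Fin κ => (τ c.1 c.2)⁻¹) (fun c => c.1) (by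
      rintro ⟨k, i⟩ ⟨k', i'⟩ hk h
      simp only at hk
      subst hk
      rw [inv_inv] at h
      rw [hτ k i i' h])
      (fun i : (allS B) × (K × Fin κ) × L => i.2.1)
      (fun i => (τ i.2.1.1 i.2.1.2 * (i.1 : G))⁻¹) (fun i => i.2.1.1) (fun i => i.2.2)
      (coefT (allS B) B) (fun _ => rfl) (by
        intro i
        rw [inv_inv, mul_inv_rev, mul_assoc, inv_mul_cancel, mul_one]
        exact H.inv_mem (hmem _ i.1.2)) κ (by
        intro k
        have h1 : (Finset.univ.filter (fun c : K × Fin κ => c.1 = k))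
            = (Finset.univ : Finset (Fin κ)).image (fun i => (k, i)) := by
          ext ⟨k', i⟩
          simp only [Finset.mem_filter, Finset.mem_univ, true_and, Finset.mem_image,
            Prod.mk.injEq]
          constructor
          · rintro rfl
            exact ⟨i, rfl, rfl⟩
          · rintro ⟨i', rfl, _⟩
            rfl
        rw [h1]
        exact Finset.card_image_le.trans (by simp))
    rw [← hop] at h
    have h2 : opR (fun c : K × Fin κ => (τ c.1 c.2)⁻¹)
        (fun i : (allS B) × (K × Fin κ) × L => i.2.1)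
        (fun i => (τ i.2.1.1 i.2.1.2 * (i.1 : G))⁻¹) (fun i => i.2.2)
        (coefT (allS B) B) = mo B := by
      unfold opR mo
      congr 1
      funext i
      simp only
      rw [inv_inv, mul_inv_rev, mul_assoc, inv_mul_cancel, mul_one]
    rw [h2] at h
    exact h

end

end Run7.h266.AZ
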