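import Pool.Agent.Run7.h266.AZ.Fam

set_option autoImplicit false
set_option linter.unusedSectionVars false
set_option linter.unusedSimpArgs false

open scoped InnerProductSpace InnerProduct ENNReal

/-! Matrices over the group algebra: rows, columns, cosets. -/

namespace Run7.h266.AZ

open Pool.Agent.W649.ZL

universe u v w

section
variable {G : Type u} {K : Type v} {L : Type w} [Group G] [Fintype K] [Fintype L]
  [DecidableEq K] [DecidableEq L]

/-- `x ↦ α(x⁻¹)` -/
noncomputable def iv (α : G →₀ ℂ) : G →₀ ℂ := Finsupp.equivMapDomain (Equiv.inv G) α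

theorem iv_apply (α : G →₀ ℂ) (x : G) : iv α x = α x⁻¹ := by
  unfold iv
  rw [Finsupp.equivMapDomain_apply]
  rfl

theorem mem_support_iv (α : G →₀ ℂ) (x : G) : x ∈ (iv α).support ↔ x⁻¹ ∈ α.support := by
  rw [Finsupp.mem_support_iff, Finsupp.mem_support_iff, iv_apply]

/-- the complex conjugate -/
noncomputable def cj (α : G →₀ ℂ) : G →₀ ℂ := st (iv α)

theorem cj_apply (α : G →₀ ℂ) (x : G) : cj α x = (starRingEnd ℂ) (α x) := by
  unfold cj
  rw [st_apply, iv_apply, inv_inv]

theorem st_cj (α : G →₀ ℂ) : st (cj α) = iv α := by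
  ext x
  rw [st_apply, cj_apply, iv_apply, Complex.conj_conj]

theorem cj_support (α : G →₀ ℂ) : (cj α).support = α.support := by
  ext x
  rw [Finsupp.mem_support_iff, Finsupp.mem_support_iff, cj_apply]
  simp

theorem cj_li {k : ℕ} (C : Fin k → (G →₀ ℂ)) (hC : LinearIndependent ℂ C) :
    LinearIndependent ℂ (fun a => cj (C a)) := by
  rw [Fintype.linearIndependent_iff] at hC ⊢
  intro g hg a
  have h1 : ∑ a, (starRingEnd ℂ) (g a) • C a = 0 := by
    ext x
    have h2 := congrArg (fun F : G →₀ ℂ => (starRingEnd ℂ) (F x)) hg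
    simp only [Finsupp.finsetSum_apply, Finsupp.coe_zero, Pi.zero_apply, map_zero, map_sum] at h2
    rw [Finsupp.finsetSum_apply, Finsupp.coe_zero, Pi.zero_apply, ← h2]
    refine Finset.sum_congr rfl fun a _ => ?_
    rw [Finsupp.smul_apply, Finsupp.smul_apply, cj_apply, smul_eq_mul, smul_eq_mul, map_mul,
      Complex.conj_conj]
  have h2 := hC _ h1 a
  simpa using h2

theorem iv_li {k : ℕ} (C : Fin k → (G →₀ ℂ)) (hC : LinearIndependent ℂ C) :
    LinearIndependent ℂ (fun a => iv (C a)) := by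
  rw [Fintype.linearIndependent_iff] at hC ⊢
  intro g hg a
  have h1 : ∑ a, g a • C a = 0 := by
    ext x
    have h2 := congrArg (fun F : G →₀ ℂ => F x⁻¹) hg
    simp only [Finsupp.finsetSum_apply, Finsupp.coe_zero, Pi.zero_apply] at h2
    rw [Finsupp.finsetSum_apply, Finsupp.coe_zero, Pi.zero_apply, ← h2]
    refine Finset.sum_congr rfl fun a _ => ?_
    rw [Finsupp.smul_apply, Finsupp.smul_apply, iv_apply, inv_inv]
  exact hC _ h1 a

open Classical in
/-- all group elements occurring in the matrix -/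
noncomputable def allS (A : K → L → (G →₀ ℂ)) : Finset G :=
  Finset.univ.biUnion (fun i => Finset.univ.biUnion (fun j => (A i j).support))

theorem sub_allS (A : K → L → (G →₀ ℂ)) (i : K) (j : L) : (A i j).support ⊆ allS A := by
  classical
  intro x hx
  unfold allS
  rw [Finset.mem_biUnion]
  refine ⟨i, Finset.mem_univ i, ?_⟩
  rw [Finset.mem_biUnion]
  exact ⟨j, Finset.mem_univ j, hx⟩

/-- the operator of a matrix -/
noncomputable def mo (A : K → L → (G →₀ ℂ)) : EE G K →L[ℂ] EE G L :=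
  op (fun i : (allS A) × K × L => (i.1 : G)⁻¹) (fun i => i.2.1) (fun i => i.2.2)
    (coefT (allS A) A)

theorem mo_eqv (A : K → L → (G →₀ ℂ)) : Eqv (mo A) := op_eqv _ _ _ _

theorem kerDimM_mo (A : K → L → (G →₀ ℂ)) :
    kerDimM A = vd (LinearMap.ker (mo A : EE G K →ₗ[ℂ] EE G L)) := by
  conv_lhs => rw [← matM_coefT (allS A) A (sub_allS A)]
  rw [kerDimM_eq]
  rfl

/-- the rank of a matrix -/
noncomputable def rkM (A : K → L → (G →₀ ℂ)) : ℝ :=
  vd (LinearMap.range (mo A : EE G K →ₗ[ℂ] EE G L))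

theorem rkM_eq (A : K → L → (G →₀ ℂ)) : rkM A = Fintype.card K - kerDimM A := by
  rw [kerDimM_mo]
  exact vd_range _ (mo_eqv A)

theorem mo_apply (A : K → L → (G →₀ ℂ)) (F : EE G K) (x : G) (l : L) :
    mo A F (x, l) = ∑ k, ∑ t ∈ allS A, A k l t * F (t * x, k) := by
  classical
  unfold mo coefT
  rw [op_apply, Fintype.sum_prod_type]
  have h1 : ∀ t : allS A, ∑ y : K × L, A y.1 y.2 t *
      (if l = y.2 then F (((t : G)⁻¹)⁻¹ * x, y.1) else 0) = ∑ k, A k l t * F (t * x, k) := by
    intro t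
    rw [Fintype.sum_prod_type]
    refine Finset.sum_congr rfl fun k _ => ?_
    rw [Finset.sum_eq_single l]
    · rw [if_pos rfl, inv_inv]
    · intro b _ hb
      rw [if_neg (fun h => hb h.symm), mul_zero]
    · intro h; exact absurd (Finset.mem_univ _) h
  refine (Finset.sum_congr rfl fun t _ => h1 t).trans ?_
  rw [Finset.sum_comm]
  refine Finset.sum_congr rfl fun k _ => ?_
  exact Finset.sum_coe_sort (allS A) (fun t => A k l t * F (t * x, k))

/-- an entry of the matrix -/
theorem entry (A : K → L → (G →₀ ℂ)) (k : K) (l : L) :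
    (elem (1 : G) () l).comp ((mo A).comp (elem (1 : G) k ())) = cop (iv (A k l)) := by
  classical
  ext f ⟨x, ⟨⟩⟩
  have h1 : (elem (1 : G) () l).comp ((mo A).comp (elem (1 : G) k ())) f (x, ())
      = mo A (elem (1 : G) k () f) (1⁻¹ * x, l) := rfl
  rw [h1, inv_one, one_mul, mo_apply, Finset.sum_eq_single k]
  · have h2 : ∀ t, (elem (1 : G) k () f) (t * x, k) = f (t * x, ()) := by
      intro t
      change (if k = k then f (1⁻¹ * (t * x), ()) else 0) = _
      rw [if_pos rfl, inv_one, one_mul]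
    simp only [h2]
    rw [cop_apply' (iv (A k l)) ((allS A).map (Equiv.inv G).toEmbedding), Finset.sum_map]
    · refine Finset.sum_congr rfl fun t _ => ?_
      simp only [Equiv.toEmbedding_apply, Equiv.inv_apply]
      rw [iv_apply, inv_inv]
    · intro y hy
      rw [mem_support_iv] at hy
      rw [Finset.mem_map]
      exact ⟨y⁻¹, sub_allS A k l hy, by simp⟩
  · intro k' _ hk'
    apply Finset.sum_eq_zero
    intro t _
    have h2 : (elem (1 : G) k () f) (t * x, k') = 0 := by
      change (if k' = k then f (1⁻¹ * (t * x), ()) else 0) = _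
      rw [if_neg hk']
    rw [h2, mul_zero]
  · intro h; exact absurd (Finset.mem_univ _) h

theorem Eqv.comp' {I J M : Type*} {X : EE G J →L[ℂ] EE G M} {Y : EE G I →L[ℂ] EE G J}
    (hX : Eqv X) (hY : Eqv Y) : Eqv (X.comp Y) := by
  intro k f
  rw [ContinuousLinearMap.comp_apply, ContinuousLinearMap.comp_apply, hY, hX]

theorem rk_comp_right {I J M : Type*} [Fintype J] [Fintype M] (X : EE G J →L[ℂ] EE G M)
    (Y : EE G I →L[ℂ] EE G J) :
    vd (LinearMap.range (X.comp Y : EE G I →ₗ[ℂ] EE G M))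
      ≤ vd (LinearMap.range (X : EE G J →ₗ[ℂ] EE G M)) := by
  apply vd_mono
  rintro _ ⟨f, rfl⟩
  exact ⟨Y f, rfl⟩

theorem rk_comp_left {I J M : Type*} [Fintype I] [Fintype J] [Fintype M]
    (X : EE G J →L[ℂ] EE G M) (Y : EE G I →L[ℂ] EE G J) (hX : Eqv X) (hY : Eqv Y) :
    vd (LinearMap.range (X.comp Y : EE G I →ₗ[ℂ] EE G M))
      ≤ vd (LinearMap.range (Y : EE G I →ₗ[ℂ] EE G J)) := by
  rw [← vd_range_adjoint _ (Eqv.comp' hX hY), ← vd_range_adjoint _ hY,
    ContinuousLinearMap.adjoint_comp]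
  exact rk_comp_right _ _

instance instKer2 {J M : Type*} (T : EE G J →L[ℂ] EE G M) :
    (LinearMap.ker (T : EE G J →ₗ[ℂ] EE G M)).HasOrthogonalProjection := by
  have hc : IsClosed ((LinearMap.ker (T : EE G J →ₗ[ℂ] EE G M) :
      Submodule ℂ (EE G J)) : Set (EE G J)) := T.isClosed_ker
  have : CompleteSpace (LinearMap.ker (T : EE G J →ₗ[ℂ] EE G M)) := hc.completeSpace_coe
  infer_instance

/-- **A row.** -/
theorem row_bound (A : K → L → (G →₀ ℂ)) (i : K) (k : ℕ) (hk0 : 0 < k) (c : Fin k → L)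
    (hC : LinearIndependent ℂ (fun a => A i (c a))) (S : Finset G)
    (hS : ∀ a, (A i (c a)).support ⊆ S) :
    k ≤ S.card ∧ ((∀ u ∈ quo S, IsOfFinOrder u →
      (S.card * k + (S.card - k)) * rep S u ≤ S.card * k * (S.card - 1)) →
      (S.card : ℝ) ^ 2 * (1 - rkM A) ≤ ((S.card : ℝ) - 1) * (S.card - k)) ∧
      (S.card : ℝ) * (1 - rkM A) ≤ S.card - k := by
  classical
  set R : EE G Unit →L[ℂ] EE G L := (mo A).comp (elem (1 : G) i ()) with hR
  have hRe : Eqv R := Eqv.comp' (mo_eqv A) (elem_eqv _ _ _)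
  have h1 : 1 - rkM A ≤ vd (LinearMap.ker (R : EE G Unit →ₗ[ℂ] EE G L)) := by
    have h2 := vd_range R hRe
    rw [Fintype.card_unit, Nat.cast_one] at h2
    have h3 : vd (LinearMap.range (R : EE G Unit →ₗ[ℂ] EE G L)) ≤ rkM A :=
      rk_comp_right (mo A) (elem (1 : G) i ())
    linarith
  have h := family (LinearMap.ker (R : EE G Unit →ₗ[ℂ] EE G L)) (Inv_ker R hRe)
    (ContinuousLinearMap.isClosed_ker R) k hk0 (fun a => cj (A i (c a))) (cj_li _ hC) (by
      intro f hf a
      have hf' : R f = 0 := hf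
      rw [st_cj, ← entry A i (c a)]
      change (elem (1 : G) () (c a)) (R f) = 0
      rw [hf', map_zero]) S (fun a => by rw [cj_support]; exact hS a)
  obtain ⟨ha, hb, hc⟩ := h
  refine ⟨ha, fun hfin => (mul_le_mul_of_nonneg_left h1 (by positivity)).trans (hb hfin),
    (mul_le_mul_of_nonneg_left h1 (by positivity)).trans hc⟩

/-- **A column.** -/
theorem col_bound (A : K → L → (G →₀ ℂ)) (j : L) (k : ℕ) (hk0 : 0 < k) (c : Fin k → K)
    (hC : LinearIndependent ℂ (fun a => A (c a) j)) (S : Finset G)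
    (hS : ∀ a, (iv (A (c a) j)).support ⊆ S) :
    k ≤ S.card ∧ ((∀ u ∈ quo S, IsOfFinOrder u →
      (S.card * k + (S.card - k)) * rep S u ≤ S.card * k * (S.card - 1)) →
      (S.card : ℝ) ^ 2 * (1 - rkM A) ≤ ((S.card : ℝ) - 1) * (S.card - k)) ∧
      (S.card : ℝ) * (1 - rkM A) ≤ S.card - k := by
  classical
  set R : EE G K →L[ℂ] EE G Unit := (elem (1 : G) () j).comp (mo A) with hR
  have hRe : Eqv R := Eqv.comp' (elem_eqv _ _ _) (mo_eqv A)
  set R' := ContinuousLinearMap.adjoint R with hR'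
  have hRe' : Eqv R' := hRe.adjoint
  have h1 : 1 - rkM A ≤ vd (LinearMap.ker (R' : EE G Unit →ₗ[ℂ] EE G K)) := by
    have h2 := vd_range R' hRe'
    rw [Fintype.card_unit, Nat.cast_one] at h2
    have h3 : vd (LinearMap.range (R' : EE G Unit →ₗ[ℂ] EE G K)) ≤ rkM A := by
      rw [hR', vd_range_adjoint R hRe]
      exact rk_comp_left _ _ (elem_eqv _ _ _) (mo_eqv A)
    linarith
  have h := family (LinearMap.ker (R' : EE G Unit →ₗ[ℂ] EE G K)) (Inv_ker R' hRe')
    (ContinuousLinearMap.isClosed_ker R') k hk0 (fun a => iv (A (c a) j)) (iv_li _ hC) (by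
      intro f hf a
      have hf' : R' f = 0 := hf
      rw [← adjoint_cop, ← entry A (c a) j, ← ContinuousLinearMap.comp_assoc,
        ContinuousLinearMap.adjoint_comp]
      change (ContinuousLinearMap.adjoint (elem (1 : G) (c a) ())) (R' f) = 0
      rw [hf', map_zero]) S hS
  obtain ⟨ha, hb, hc⟩ := h
  refine ⟨ha, fun hfin => (mul_le_mul_of_nonneg_left h1 (by positivity)).trans (hb hfin),
    (mul_le_mul_of_nonneg_left h1 (by positivity)).trans hc⟩

end

end Run7.h266.AZ
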