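import Pool.Agent.Run7.h266.AZ.Coset

set_option autoImplicit false
set_option linter.unusedSectionVars false
set_option linter.unusedSimpArgs false

open scoped InnerProductSpace InnerProduct ENNReal

/-! Popular quotients: the energy of the projection to an invariant subspace on the quotients of
the support of a vector of the orthogonal complement. -/

namespace Run7.h266.AZ

open Pool.Agent.W649.ZL

universe u

section
variable {G : Type u} [Group G]

/-- the projection of the basis vector at `1` -/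
noncomputable def xi (U : Submodule ℂ (EE G Unit)) [U.HasOrthogonalProjection] : EE G Unit :=
  U.starProjection (dl ((1 : G), ()))

variable (U : Submodule ℂ (EE G Unit)) [U.HasOrthogonalProjection]

theorem xi_mem : xi U ∈ U := Submodule.starProjection_apply_mem _ _

theorem proj_dl (hU : Pool.Agent.W649.ZL.Inv U) (x : G) : U.starProjection (dl (x, ())) = tr x⁻¹ (xi U) := by
  have e1 : dl (x, ()) = tr x⁻¹ (dl ((1 : G), ())) := by rw [tr_dl]; simp
  rw [e1, proj_tr hU]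
  rfl

theorem xi_apply (x : G) : xi U (x, ()) = ⟪U.starProjection (dl (x, ())),
    U.starProjection (dl ((1 : G), ()))⟫_ℂ := by
  rw [← inner_dl_left (x, ()) (xi U)]
  rw [Submodule.inner_starProjection_left_eq_right]
  congr 1
  rw [Submodule.starProjection_eq_self_iff.2 (Submodule.starProjection_apply_mem _ _)]
  rfl

theorem xi_one : xi U (1, ()) = ((‖xi U‖ ^ 2 : ℝ) : ℂ) := by
  rw [xi_apply, inner_self_eq_norm_sq_to_K]
  push_cast
  rfl

theorem norm_proj_dl (hU : Pool.Agent.W649.ZL.Inv U) (x : G) : ‖U.starProjection (dl (x, ()))‖ ^ 2 = ‖xi U‖ ^ 2 := by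
  rw [proj_dl U hU, norm_tr]

/-- `|ξ(x)| ≤ d` -/
theorem norm_xi_le (hU : Pool.Agent.W649.ZL.Inv U) (x : G) : ‖xi U (x, ())‖ ≤ ‖xi U‖ ^ 2 := by
  rw [xi_apply]
  refine (norm_inner_le_norm _ _).trans ?_
  rw [proj_dl U hU, norm_tr, pow_two]
  exact le_rfl

theorem norm_sub_proj (hU : Pool.Agent.W649.ZL.Inv U) (x : G) :
    ‖dl (x, ()) - U.starProjection (dl (x, ()))‖ ^ 2 = 1 - ‖xi U‖ ^ 2 := by
  have h2 : ‖(dl (x, ()) : EE G Unit)‖ ^ 2 = ‖U.starProjection (dl (x, ()))‖ ^ 2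
      + ‖Uᗮ.starProjection (dl (x, ()))‖ ^ 2 :=
    Submodule.norm_sq_eq_add_norm_sq_starProjection _ U
  have h3 : Uᗮ.starProjection (dl (x, ())) = dl (x, ()) - U.starProjection (dl (x, ())) := by
    rw [← Submodule.starProjection_orthogonal_val]
  rw [h3, norm_dl, norm_proj_dl U hU] at h2
  linarith

/-- `|ξ(x)| ≤ 1 - d` for `x ≠ 1` -/
theorem norm_xi_le' (hU : Pool.Agent.W649.ZL.Inv U) (x : G) (hx : x ≠ 1) : ‖xi U (x, ())‖ ≤ 1 - ‖xi U‖ ^ 2 := by
  set A : EE G Unit := dl (x, ()) with hA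
  set B : EE G Unit := dl ((1 : G), ()) with hB
  have h1 : ⟪A - U.starProjection A, B - U.starProjection B⟫_ℂ = - xi U (x, ()) := by
    have h2 : ⟪A - U.starProjection A, U.starProjection B⟫_ℂ = 0 :=
      Submodule.starProjection_inner_eq_zero A _ (Submodule.starProjection_apply_mem U B)
    have h3 : ⟪A, B⟫_ℂ = 0 := by
      rw [hA, inner_dl_left, hB, dl_apply_ne]
      intro h
      exact hx (congrArg Prod.fst h)
    have h4 : ⟪U.starProjection A, B⟫_ℂ = xi U (x, ()) := by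
      rw [Submodule.inner_starProjection_left_eq_right, hA, inner_dl_left]
      rfl
    rw [inner_sub_right, h2, sub_zero, inner_sub_left, h3, h4, zero_sub]
  have h5 : ‖xi U (x, ())‖ = ‖⟪A - U.starProjection A, B - U.starProjection B⟫_ℂ‖ := by
    rw [h1, norm_neg]
  rw [h5]
  refine (norm_inner_le_norm _ _).trans ?_
  have h6 := norm_sub_proj U hU x
  have h7 := norm_sub_proj U hU 1
  rw [← hA] at h6
  rw [← hB] at h7
  have h8 : ‖A - U.starProjection A‖ = ‖B - U.starProjection B‖ := by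
    rw [← sq_eq_sq₀ (norm_nonneg _) (norm_nonneg _), h6, h7]
  rw [h8, ← pow_two, h7]

/-- the orthogonality relations -/
theorem relation (hU : Pool.Agent.W649.ZL.Inv U) (T : Finset G) (v : EE G Unit) (hv : v ∈ Uᗮ)
    (hT : ∀ x, x ∉ T → v (x, ()) = 0) (s : G) :
    ∑ t ∈ T, v (t, ()) * (starRingEnd ℂ) (xi U (t * s⁻¹, ())) = 0 := by
  have h1 : ⟪tr s⁻¹ (xi U), v⟫_ℂ = 0 :=
    Submodule.inner_right_of_mem_orthogonal (hU _ _ (xi_mem U)) hv
  rw [lp.inner_eq_tsum, ← Equiv.tsum_eq (Equiv.prodPUnit G).symm, tsum_eq_sum (s := T)] at h1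
  · rw [← h1]
    refine Finset.sum_congr rfl fun t _ => ?_
    rfl
  · intro x hx
    have : v ((Equiv.prodPUnit G).symm x) = 0 := hT x hx
    rw [this, inner_zero_right]

/-- The energy inequality. -/
theorem energy (hU : Pool.Agent.W649.ZL.Inv U) (T : Finset G) (v : EE G Unit) (hv : v ∈ Uᗮ)
    (hT : ∀ x, x ∉ T → v (x, ()) = 0) (hv0 : ∃ x, v (x, ()) ≠ 0) :
    (T.card : ℝ) * (‖xi U‖ ^ 2) ^ 2
      ≤ ((T.card : ℝ) - 1) * ∑ z ∈ T.offDiag, ‖xi U (z.2 * z.1⁻¹, ())‖ ^ 2 := by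
  classical
  set d : ℝ := ‖xi U‖ ^ 2 with hd
  set w : G → ℝ := fun x => ‖v (x, ())‖ with hw
  set N : ℝ := ∑ x ∈ T, w x ^ 2 with hN
  have hw0 : ∀ x, 0 ≤ w x := fun x => norm_nonneg _
  have hNpos : 0 < N := by
    obtain ⟨x, hx⟩ := hv0
    have hxT : x ∈ T := by
      by_contra h
      exact hx (hT x h)
    refine Finset.sum_pos' (fun y _ => by positivity) ⟨x, hxT, ?_⟩
    have : 0 < w x := norm_pos_iff.2 hx
    positivity
  have hTne : T.Nonempty := by
    obtain ⟨x, hx⟩ := hv0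
    refine ⟨x, ?_⟩
    by_contra h
    exact hx (hT x h)
  have hn1 : (1 : ℝ) ≤ T.card := by exact_mod_cast hTne.card_pos
  have hd0 : 0 ≤ d := by positivity
  -- pointwise
  have h1 : ∀ s ∈ T, d * w s ^ 2 ≤ ∑ t ∈ T.filter (fun t => s ≠ t),
      ‖xi U (t * s⁻¹, ())‖ * (w s * w t) := by
    intro s hs
    have h2 := relation U hU T v hv hT s
    rw [← Finset.add_sum_erase _ _ hs, mul_inv_cancel, xi_one, Complex.conj_ofReal, ← hd] at h2
    have h3 : v (s, ()) * (d : ℂ) = -∑ t ∈ T.erase s,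
        v (t, ()) * (starRingEnd ℂ) (xi U (t * s⁻¹, ())) := eq_neg_of_add_eq_zero_left h2
    have h4 : w s * d ≤ ∑ t ∈ T.erase s, w t * ‖xi U (t * s⁻¹, ())‖ := by
      have h5 := congrArg norm h3
      rw [norm_mul, norm_neg, Complex.norm_real, Real.norm_of_nonneg hd0] at h5
      rw [show w s = ‖v (s, ())‖ from rfl, h5]
      refine (norm_sum_le _ _).trans (le_of_eq ?_)
      refine Finset.sum_congr rfl fun t _ => ?_
      rw [norm_mul, RCLike.norm_conj]
    have h6 := mul_le_mul_of_nonneg_left h4 (hw0 s)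
    rw [Finset.mul_sum] at h6
    have h7 : T.erase s = T.filter (fun t => s ≠ t) := by
      ext t
      simp only [Finset.mem_erase, Finset.mem_filter]
      constructor
      · rintro ⟨a, b⟩; exact ⟨b, a.symm⟩
      · rintro ⟨a, b⟩; exact ⟨b.symm, a⟩
    rw [h7] at h6
    calc d * w s ^ 2 = w s * (w s * d) := by ring
      _ ≤ _ := h6
      _ = _ := Finset.sum_congr rfl fun t _ => by ring
  have h2 : d * N ≤ ∑ z ∈ T.offDiag, ‖xi U (z.2 * z.1⁻¹, ())‖ * (w z.1 * w z.2) := by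
    rw [hN, Finset.mul_sum]
    refine (Finset.sum_le_sum h1).trans (le_of_eq ?_)
    have h3 : T.offDiag = (T ×ˢ T).filter (fun z => z.1 ≠ z.2) := by
      ext z
      simp [Finset.mem_offDiag, Finset.mem_filter, Finset.mem_product, and_assoc]
    rw [h3, Finset.sum_filter, Finset.sum_product]
    refine Finset.sum_congr rfl fun s _ => ?_
    rw [Finset.sum_filter]
  have h3 := (Finset.sum_mul_sq_le_sq_mul_sq T.offDiag
    (fun z => ‖xi U (z.2 * z.1⁻¹, ())‖) (fun z => w z.1 * w z.2))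
  have h4 : (d * N) ^ 2 ≤ (∑ z ∈ T.offDiag, ‖xi U (z.2 * z.1⁻¹, ())‖ ^ 2)
      * ∑ z ∈ T.offDiag, (w z.1 * w z.2) ^ 2 :=
    (pow_le_pow_left₀ (by positivity) h2 2).trans h3
  -- the sum over the off-diagonal
  have h5 : ∑ z ∈ T.offDiag, (w z.1 * w z.2) ^ 2 + ∑ s ∈ T, w s ^ 4 = N ^ 2 := by
    have h6 : N ^ 2 = ∑ z ∈ T ×ˢ T, (w z.1 * w z.2) ^ 2 := by
      rw [pow_two, hN, Finset.sum_mul_sum, Finset.sum_product]
      refine Finset.sum_congr rfl fun s _ => Finset.sum_congr rfl fun t _ => by ring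
    have h7 : T ×ˢ T = T.diag ∪ T.offDiag := (Finset.diag_union_offDiag T).symm
    rw [h6, h7, Finset.sum_union (Finset.disjoint_diag_offDiag T), Finset.sum_diag, add_comm]
    congr 1
    refine Finset.sum_congr rfl fun s _ => by ring
  have h6 : N ^ 2 ≤ T.card * ∑ s ∈ T, w s ^ 4 := by
    have := sq_sum_le_card_mul_sum_sq (s := T) (f := fun s => w s ^ 2)
    refine this.trans (le_of_eq ?_)
    congr 1
    refine Finset.sum_congr rfl fun s _ => by ring
  set E := ∑ z ∈ T.offDiag, ‖xi U (z.2 * z.1⁻¹, ())‖ ^ 2 with hE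
  have hE0 : 0 ≤ E := Finset.sum_nonneg fun _ _ => by positivity
  set F := ∑ z ∈ T.offDiag, (w z.1 * w z.2) ^ 2 with hF
  -- n F ≤ (n - 1) N ^ 2
  have h7 : (T.card : ℝ) * F ≤ ((T.card : ℝ) - 1) * N ^ 2 := by nlinarith
  have h8 : (T.card : ℝ) * (d * N) ^ 2 ≤ ((T.card : ℝ) - 1) * N ^ 2 * E := by
    calc (T.card : ℝ) * (d * N) ^ 2 ≤ T.card * (E * F) :=
          mul_le_mul_of_nonneg_left h4 (by positivity)
      _ = E * (T.card * F) := by ring
      _ ≤ E * (((T.card : ℝ) - 1) * N ^ 2) := mul_le_mul_of_nonneg_left h7 hE0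
      _ = _ := by ring
  have hN2 : 0 < N ^ 2 := by positivity
  have h9 : N ^ 2 * ((T.card : ℝ) * d ^ 2) ≤ N ^ 2 * (((T.card : ℝ) - 1) * E) := by
    calc N ^ 2 * ((T.card : ℝ) * d ^ 2) = (T.card : ℝ) * (d * N) ^ 2 := by ring
      _ ≤ _ := h8
      _ = _ := by ring
  exact le_of_mul_le_mul_left h9 hN2

/-- finitely many values carry at most the whole energy -/
theorem energy_sub (I : Finset G) (f : EE G Unit) : ∑ x ∈ I, ‖f (x, ())‖ ^ 2 ≤ ‖f‖ ^ 2 := by
  rw [norm_sq_tsum, ← Equiv.tsum_eq (Equiv.prodPUnit G).symm]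
  have h := (memlp_two_iff _).1 f.2
  have h2 : Summable (fun x : G => ‖f ((Equiv.prodPUnit G).symm x)‖ ^ 2) :=
    (Equiv.summable_iff (Equiv.prodPUnit G).symm).2 h
  exact h2.sum_le_tsum I (fun _ _ => by positivity)

open Classical in
/-- **Popular quotients.** -/
theorem popular (hU : Pool.Agent.W649.ZL.Inv U) (T : Finset G) (v : EE G Unit) (hv : v ∈ Uᗮ)
    (hT : ∀ x, x ∉ T → v (x, ()) = 0) (hv0 : ∃ x, v (x, ()) ≠ 0) (r : ℝ) (hr : 0 ≤ r)
    (d : ℝ) (hd : d = ‖xi U‖ ^ 2) :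
    (T.card : ℝ) * d ^ 2 ≤ ((T.card : ℝ) - 1) * (r * (d * (1 - d)) + min d (1 - d) ^ 2 *
      ∑ u ∈ T.offDiag.image (fun z => z.2 * z.1⁻¹),
        max (((T.offDiag.filter (fun z => z.2 * z.1⁻¹ = u)).card : ℝ) - r) 0) := by
  set I := T.offDiag.image (fun z => z.2 * z.1⁻¹) with hI
  set ρ : G → ℝ := fun u => ((T.offDiag.filter (fun z => z.2 * z.1⁻¹ = u)).card : ℝ) with hρ
  have hTne : T.Nonempty := by
    obtain ⟨x, hx⟩ := hv0
    refine ⟨x, ?_⟩
    by_contra h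
    exact hx (hT x h)
  have hn1 : (1 : ℝ) ≤ T.card := by exact_mod_cast hTne.card_pos
  have h1 := energy U hU T v hv hT hv0
  rw [← hd] at h1
  have hI1 : ∀ u ∈ I, u ≠ 1 := by
    intro u hu
    obtain ⟨z, hz, rfl⟩ := Finset.mem_image.1 hu
    intro h
    rw [mul_inv_eq_one] at h
    exact (Finset.mem_offDiag.1 hz).2.2 h.symm
  have h2 : ∑ z ∈ T.offDiag, ‖xi U (z.2 * z.1⁻¹, ())‖ ^ 2 = ∑ u ∈ I, ρ u * ‖xi U (u, ())‖ ^ 2 := by
    rw [← Finset.sum_fiberwise_of_maps_to (s := T.offDiag) (t := I) (g := fun z => z.2 * z.1⁻¹)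
      (fun z hz => Finset.mem_image_of_mem _ hz)]
    refine Finset.sum_congr rfl fun u _ => ?_
    have h3 : ∀ z ∈ T.offDiag.filter (fun z => z.2 * z.1⁻¹ = u),
        ‖xi U (z.2 * z.1⁻¹, ())‖ ^ 2 = ‖xi U (u, ())‖ ^ 2 := by
      intro z hz
      rw [(Finset.mem_filter.1 hz).2]
    rw [Finset.sum_congr rfl h3, Finset.sum_const, nsmul_eq_mul]
  have h3 : ∑ u ∈ I, ‖xi U (u, ())‖ ^ 2 ≤ d * (1 - d) := by
    have h4 := energy_sub (insert 1 I) (xi U)
    rw [Finset.sum_insert (fun h => hI1 1 h rfl), ← hd, xi_one, ← hd, Complex.norm_real,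
      Real.norm_eq_abs, sq_abs] at h4
    nlinarith
  have hd0 : 0 ≤ d := by rw [hd]; positivity
  have hd1 : d ≤ 1 := by
    have := norm_sub_proj U hU 1
    rw [← hd] at this
    nlinarith [sq_nonneg ‖(dl ((1 : G), ()) : EE G Unit) - U.starProjection (dl (1, ()))‖]
  have hmin0 : 0 ≤ min d (1 - d) := le_min hd0 (by linarith)
  have h4 : ∀ u ∈ I, ρ u * ‖xi U (u, ())‖ ^ 2
      ≤ r * ‖xi U (u, ())‖ ^ 2 + min d (1 - d) ^ 2 * max (ρ u - r) 0 := by
    intro u hu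
    have h5 : ‖xi U (u, ())‖ ≤ min d (1 - d) := by
      apply le_min
      · rw [hd]; exact norm_xi_le U hU u
      · rw [hd]; exact norm_xi_le' U hU u (hI1 u hu)
    have h6 : ‖xi U (u, ())‖ ^ 2 ≤ min d (1 - d) ^ 2 := pow_le_pow_left₀ (norm_nonneg _) h5 2
    have h7 : ρ u - r ≤ max (ρ u - r) 0 := le_max_left _ _
    have h8 : 0 ≤ max (ρ u - r) 0 := le_max_right _ _
    have h9 : (ρ u - r) * ‖xi U (u, ())‖ ^ 2 ≤ max (ρ u - r) 0 * ‖xi U (u, ())‖ ^ 2 :=
      mul_le_mul_of_nonneg_right h7 (by positivity)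
    have h10 : max (ρ u - r) 0 * ‖xi U (u, ())‖ ^ 2 ≤ max (ρ u - r) 0 * min d (1 - d) ^ 2 :=
      mul_le_mul_of_nonneg_left h6 h8
    nlinarith
  have h5 := Finset.sum_le_sum h4
  rw [Finset.sum_add_distrib, ← Finset.mul_sum, ← Finset.mul_sum] at h5
  rw [h2] at h1
  refine h1.trans (mul_le_mul_of_nonneg_left ?_ (by linarith))
  refine h5.trans ?_
  have h6 : r * ∑ u ∈ I, ‖xi U (u, ())‖ ^ 2 ≤ r * (d * (1 - d)) :=
    mul_le_mul_of_nonneg_left h3 hr
  linarith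

end

end Run7.h266.AZ
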