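import Pool.Agent.Run7.h266.AZ.Elt
import Pool.Agent.Run7.h266.AZ.Pop

set_option autoImplicit false
set_option linter.unusedSectionVars false
set_option linter.unusedSimpArgs false

open scoped InnerProductSpace InnerProduct ENNReal

/-! The bound `(1 - 1/n)²` for the dimension of the kernel. -/

namespace Run7.h266.AZ

open Pool.Agent.W649.ZL

universe u

section
variable {G : Type u} [Group G]

open Classical in
/-- the number of elements of `S` which are moved into `S` by left multiplication with `u` -/
noncomputable def rep (S : Finset G) (u : G) : ℕ := (S.filter (fun x => u * x ∈ S)).card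

open Classical in
/-- the nontrivial quotients of `S` -/
noncomputable def quo (S : Finset G) : Finset G := S.offDiag.image (fun z => z.2 * z.1⁻¹)

open Classical in
theorem rep_eq (S : Finset G) (u : G) (hu : u ≠ 1) :
    (S.offDiag.filter (fun z => z.2 * z.1⁻¹ = u)).card = rep S u := by
  unfold rep
  apply Finset.card_bij (fun z _ => z.1)
  · intro z hz
    obtain ⟨h1, h2⟩ := Finset.mem_filter.1 hz
    obtain ⟨h3, h4, _⟩ := Finset.mem_offDiag.1 h1
    refine Finset.mem_filter.2 ⟨h3, ?_⟩
    rw [← h2]
    simpa using h4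
  · intro z hz w hw h
    obtain ⟨_, h2⟩ := Finset.mem_filter.1 hz
    obtain ⟨_, h2'⟩ := Finset.mem_filter.1 hw
    refine Prod.ext h ?_
    rw [mul_inv_eq_iff_eq_mul] at h2 h2'
    rw [h2, h2', h]
  · intro x hx
    obtain ⟨h1, h2⟩ := Finset.mem_filter.1 hx
    refine ⟨(x, u * x), Finset.mem_filter.2 ⟨Finset.mem_offDiag.2 ⟨h1, h2, ?_⟩, ?_⟩, rfl⟩
    · intro h
      apply hu
      have : 1 * x = u * x := by rw [one_mul]; exact h
      exact (mul_right_cancel this).symm
    · show u * x * x⁻¹ = u
      rw [mul_inv_cancel_right]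

theorem quo_ne_one (S : Finset G) (u : G) (hu : u ∈ quo S) : u ≠ 1 := by
  classical
  obtain ⟨z, hz, rfl⟩ := Finset.mem_image.1 hu
  intro h
  rw [mul_inv_eq_one] at h
  exact (Finset.mem_offDiag.1 hz).2.2 h.symm

instance instKer (α : G →₀ ℂ) :
    (LinearMap.ker (cop α : EE G Unit →ₗ[ℂ] EE G Unit)).HasOrthogonalProjection := by
  have hc : IsClosed ((LinearMap.ker (cop α : EE G Unit →ₗ[ℂ] EE G Unit) :
      Submodule ℂ (EE G Unit)) : Set (EE G Unit)) := (cop α).isClosed_ker
  have : CompleteSpace (LinearMap.ker (cop α : EE G Unit →ₗ[ℂ] EE G Unit)) := hc.completeSpace_coe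
  infer_instance

theorem xi_ker (α : G →₀ ℂ) :
    ‖xi (LinearMap.ker (cop α : EE G Unit →ₗ[ℂ] EE G Unit))‖ ^ 2 = 1 - rk α := by
  rw [rk_eq]
  rw [vd_eq _ (LinearMap.ker (cop α : EE G Unit →ₗ[ℂ] EE G Unit))
    (topcl_eq (cop α).isClosed_ker)]
  simp [xi]

theorem rk_le_one (α : G →₀ ℂ) : rk α ≤ 1 := by
  have := xi_ker α
  nlinarith [sq_nonneg ‖xi (LinearMap.ker (cop α : EE G Unit →ₗ[ℂ] EE G Unit))‖]

theorem cop_dl (α : G →₀ ℂ) (x : G) : cop α (dl ((1 : G), ())) (x, ()) = α x := by
  classical
  rw [cop_apply]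
  have : ∀ k ∈ α.support, α k * (dl ((1 : G), ()) : EE G Unit) (k⁻¹ * x, ())
      = if k = x then α x else 0 := by
    intro k _
    by_cases h : k = x
    · subst h
      rw [inv_mul_cancel, dl_apply_self, mul_one, if_pos rfl]
    · rw [if_neg h, dl_apply_ne, mul_zero]
      intro h'
      apply h
      have := congrArg Prod.fst h'
      simp only at this
      rw [inv_mul_eq_one] at this
      exact this
  rw [Finset.sum_congr rfl this, Finset.sum_ite_eq']
  split_ifs with h
  · rfl
  · exact (Finsupp.notMem_support_iff.1 h).symm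

theorem cop_dl_mem (α : G →₀ ℂ) :
    cop α (dl ((1 : G), ())) ∈ (LinearMap.ker (cop (st α) : EE G Unit →ₗ[ℂ] EE G Unit))ᗮ := by
  rw [Submodule.mem_orthogonal]
  intro f hf
  have hf' : cop (st α) f = 0 := hf
  rw [← adjoint_cop] at hf'
  rw [← ContinuousLinearMap.adjoint_inner_left, hf', inner_zero_left]

/-- **Popular quotients** of the support. -/
theorem popular_rk (α : G →₀ ℂ) (h0 : α ≠ 0) (r : ℝ) (hr : 0 ≤ r) :
    (α.support.card : ℝ) * (1 - rk α) ^ 2 ≤ ((α.support.card : ℝ) - 1) *
      (r * ((1 - rk α) * rk α) + min (1 - rk α) (rk α) ^ 2 *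
        ∑ u ∈ quo α.support, max ((rep α.support u : ℝ) - r) 0) := by
  classical
  have hinv := Inv_ker (cop (st α)) (cop_eqv (st α))
  have hx := xi_ker (st α)
  rw [rk_st] at hx
  have hv0 : ∃ x, cop α (dl ((1 : G), ())) (x, ()) ≠ 0 := by
    obtain ⟨x, hx⟩ := Finsupp.support_nonempty_iff.2 h0
    refine ⟨x, ?_⟩
    rw [cop_dl]
    exact Finsupp.mem_support_iff.1 hx
  have h := popular _ hinv α.support (cop α (dl ((1 : G), ()))) (cop_dl_mem α) (by
    intro x hx
    rw [cop_dl]
    exact Finsupp.notMem_support_iff.1 hx) hv0 r hr (1 - rk α) hx.symm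
  rw [show 1 - (1 - rk α) = rk α by ring] at h
  refine h.trans (le_of_eq ?_)
  congr 3
  refine Finset.sum_congr rfl fun u hu => ?_
  rw [rep_eq _ _ (quo_ne_one _ u hu)]

/-- A uniform bound for the number of representations. -/
theorem popular_max (α : G →₀ ℂ) (h0 : α ≠ 0) (m : ℕ) (hm : ∀ u ∈ quo α.support,
    rep α.support u ≤ m) :
    (α.support.card : ℝ) ≤ rk α * (α.support.card + (α.support.card - 1) * m) := by
  have h := popular_rk α h0 m (Nat.cast_nonneg m)
  have h1 : ∑ u ∈ quo α.support, max ((rep α.support u : ℝ) - m) 0 = 0 := by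
    apply Finset.sum_eq_zero
    intro u hu
    apply max_eq_right
    have : (rep α.support u : ℝ) ≤ m := by exact_mod_cast hm u hu
    linarith
  rw [h1, mul_zero, add_zero] at h
  have hn : (1 : ℝ) ≤ α.support.card := by
    exact_mod_cast (Finsupp.support_nonempty_iff.2 h0).card_pos
  have hr0 := rk_nonneg α
  have hr1 := rk_le_one α
  rcases eq_or_lt_of_le hr1 with h2 | h2
  · rw [h2, one_mul]
    have : 0 ≤ ((α.support.card : ℝ) - 1) * m := mul_nonneg (by linarith) (Nat.cast_nonneg m)
    linarith
  · have hd : 0 < 1 - rk α := by linarith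
    have h3 : (1 - rk α) * ((α.support.card : ℝ) * (1 - rk α))
        ≤ (1 - rk α) * (((α.support.card : ℝ) - 1) * m * rk α) := by
      calc (1 - rk α) * ((α.support.card : ℝ) * (1 - rk α))
          = (α.support.card : ℝ) * (1 - rk α) ^ 2 := by ring
        _ ≤ _ := h
        _ = _ := by ring
    have h4 := le_of_mul_le_mul_left h3 hd
    nlinarith

/-- a finite set is covered by few cosets of a cyclic group -/
theorem chain (S : Finset G) (u : G) (hu : ¬ IsOfFinOrder u) [DecidableEq G] :
    ∀ x ∈ S, ∃ y ∈ S.filter (fun x => u * x ∉ S), x * y⁻¹ ∈ Subgroup.zpowers u := by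
  intro x hx
  have hinj : Function.Injective (fun n : ℕ => u ^ n) := injective_pow_iff_not_isOfFinOrder.2 hu
  have hex : ∃ n : ℕ, u ^ n * x ∉ S := by
    by_contra hcon
    push Not at hcon
    have : Set.Infinite (S : Set G) := by
      apply Set.infinite_of_injective_forall_mem (f := fun n : ℕ => u ^ n * x)
      · intro a b hab
        exact hinj (mul_right_cancel hab)
      · intro n
        exact hcon n
    exact this S.finite_toSet
  classical
  have h1 := Nat.find_spec hex
  have h2 : Nat.find hex ≠ 0 := by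
    intro h
    rw [h] at h1
    simp [hx] at h1
  obtain ⟨k, hk⟩ := Nat.exists_eq_succ_of_ne_zero h2
  have h3 : u ^ k * x ∈ S := by
    by_contra h
    have := Nat.find_min' hex h
    omega
  rw [hk, pow_succ', mul_assoc] at h1
  refine ⟨u ^ k * x, Finset.mem_filter.2 ⟨h3, h1⟩, ?_⟩
  rw [mul_inv_rev, mul_inv_cancel_left]
  exact Subgroup.inv_mem _ (Subgroup.pow_mem _ (Subgroup.mem_zpowers u) k)

/-- the part of `α` in one right coset of a cyclic group is injective -/
theorem filter_injective (α : G →₀ ℂ) (u : G) (hu : ¬ IsOfFinOrder u) (x : G)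
    (hx : x ∈ α.support) (D : Set G) (hD : D = {z | z * x⁻¹ ∈ Subgroup.zpowers u})
    [DecidablePred (· ∈ D)] :
    Function.Injective (cop (α.filter (· ∈ D))) := by
  classical
  set β := α.filter (· ∈ D) with hβ
  have hinj2 : Function.Injective (fun z : G => z * x⁻¹) := mul_left_injective x⁻¹
  set γ := β.mapDomain (fun z => z * x⁻¹) with hγ
  have hγa : ∀ z, γ (z * x⁻¹) = β z := fun z => Finsupp.mapDomain_apply hinj2 β z
  have h1 : Function.Injective (cop γ) := by
    apply cop_zpowers_injective u hu
    · intro h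
      have h2 := hγa x
      rw [h, hβ, Finsupp.filter_apply_pos] at h2
      · exact (Finsupp.mem_support_iff.1 hx) h2.symm
      · rw [hD]
        show x * x⁻¹ ∈ Subgroup.zpowers u
        rw [mul_inv_cancel]
        exact Subgroup.one_mem _
    · intro z hz
      have h2 := Finsupp.mapDomain_support hz
      obtain ⟨w, hw, rfl⟩ := Finset.mem_image.1 h2
      rw [hβ, Finsupp.support_filter, Finset.mem_filter, hD] at hw
      exact hw.2
  have h2 : cop β = (cop γ).comp (Ltr x) := by
    rw [hγ, hβ]
    induction (Finsupp.filter (· ∈ D) α) using Finsupp.induction_linear with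
    | zero => rw [Finsupp.mapDomain_zero, map_zero, ContinuousLinearMap.zero_comp]
    | add a b ha hb =>
      rw [Finsupp.mapDomain_add, map_add, map_add, ContinuousLinearMap.add_comp, ha, hb]
    | single t c =>
      rw [Finsupp.mapDomain_single, cop_single, cop_single, ContinuousLinearMap.smul_comp,
        ← Ltr_mul, inv_mul_cancel_right]
  rw [h2]
  exact h1.comp (Ltr_injective x)

/-- covering by cosets of an infinite cyclic group -/
theorem one_le_card_mul_rk (α : G →₀ ℂ) (h0 : α ≠ 0) (u : G) (hu : ¬ IsOfFinOrder u)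
    (X : Finset G) (hX : ∀ x ∈ α.support, ∃ y ∈ X, x * y⁻¹ ∈ Subgroup.zpowers u) :
    1 ≤ X.card * rk α := by
  classical
  obtain ⟨x, hx⟩ := Finsupp.support_nonempty_iff.2 h0
  have h := rk_right (Subgroup.zpowers u) α X hX {z | z * x⁻¹ ∈ Subgroup.zpowers u} (by
    intro h hh z hz
    change h * z * x⁻¹ ∈ Subgroup.zpowers u
    rw [mul_assoc]
    exact Subgroup.mul_mem _ hh hz)
  rw [rk_of_injective _ (filter_injective α u hu x hx _ rfl)] at h
  exact h

/-- **The bound.** -/
theorem two_over_n (α : G →₀ ℂ) (h0 : α ≠ 0)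
    (hfin : ∀ u ∈ quo α.support, IsOfFinOrder u →
      (2 * α.support.card - 1) * rep α.support u ≤ α.support.card * (α.support.card - 1)) :
    (2 * (α.support.card : ℝ) - 1) ≤ rk α * (α.support.card : ℝ) ^ 2 := by
  classical
  set S := α.support with hS
  have hSne : S.Nonempty := Finsupp.support_nonempty_iff.2 h0
  have hn1 : 1 ≤ S.card := hSne.card_pos
  have hnR : (1 : ℝ) ≤ S.card := by exact_mod_cast hn1
  set m := (quo S).sup (rep S) with hm
  have hmax := popular_max α h0 m (fun u hu => Finset.le_sup (f := rep S) hu)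
  rw [← hS] at hmax
  have hr0 := rk_nonneg α
  -- the easy case
  have easy : (2 * S.card - 1) * m ≤ S.card * (S.card - 1) →
      (2 * (S.card : ℝ) - 1) ≤ rk α * (S.card : ℝ) ^ 2 := by
    intro h
    have h1 : (2 * (S.card : ℝ) - 1) * m ≤ S.card * (S.card - 1) := by
      have h2 : (((2 * S.card - 1) * m : ℕ) : ℝ) ≤ ((S.card * (S.card - 1) : ℕ) : ℝ) := by
        exact_mod_cast h
      rw [Nat.cast_mul, Nat.cast_mul, Nat.cast_sub (by omega), Nat.cast_sub (by omega)] at h2
      push_cast at h2
      exact h2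
    have hpos : (0 : ℝ) < 2 * (S.card : ℝ) - 1 := by linarith
    have h3 : (2 * (S.card : ℝ) - 1) * S.card
        ≤ rk α * ((2 * (S.card : ℝ) - 1) * (S.card + (S.card - 1) * m)) := by
      calc (2 * (S.card : ℝ) - 1) * S.card
          ≤ (2 * (S.card : ℝ) - 1) * (rk α * (S.card + (S.card - 1) * m)) :=
            mul_le_mul_of_nonneg_left hmax hpos.le
        _ = _ := by ring
    have h4 : (2 * (S.card : ℝ) - 1) * (S.card + (S.card - 1) * m) ≤ S.card * S.card ^ 2 := by
      have h5 : ((S.card : ℝ) - 1) * ((2 * (S.card : ℝ) - 1) * m)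
          ≤ ((S.card : ℝ) - 1) * (S.card * (S.card - 1)) :=
        mul_le_mul_of_nonneg_left h1 (by linarith)
      calc (2 * (S.card : ℝ) - 1) * (S.card + (S.card - 1) * m)
          = (2 * (S.card : ℝ) - 1) * S.card + ((S.card : ℝ) - 1) * ((2 * (S.card : ℝ) - 1) * m) := by
            ring
        _ ≤ (2 * (S.card : ℝ) - 1) * S.card + ((S.card : ℝ) - 1) * (S.card * (S.card - 1)) := by
            linarith
        _ = _ := by ring
    have h5 := h3.trans (mul_le_mul_of_nonneg_left h4 hr0)
    have h6 : (S.card : ℝ) * (2 * (S.card : ℝ) - 1) ≤ S.card * (rk α * (S.card : ℝ) ^ 2) := by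
      calc (S.card : ℝ) * (2 * (S.card : ℝ) - 1) = (2 * (S.card : ℝ) - 1) * S.card := by ring
        _ ≤ _ := h5
        _ = _ := by ring
    exact le_of_mul_le_mul_left h6 (by linarith)
  rcases (quo S).eq_empty_or_nonempty with hq | hq
  · apply easy
    have : m = 0 := by rw [hm, hq, Finset.sup_empty]; rfl
    rw [this, mul_zero]
    exact Nat.zero_le _
  · obtain ⟨u, huq, hum⟩ := Finset.exists_mem_eq_sup (quo S) hq (rep S)
    by_cases hu : IsOfFinOrder u
    · apply easy
      rw [hm, hum]
      exact hfin u huq hu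
    · by_cases hc : (2 * S.card - 1) * m ≤ S.card * (S.card - 1)
      · exact easy hc
      · push Not at hc
        have h1 := one_le_card_mul_rk α h0 u hu (S.filter (fun x => u * x ∉ S)) (chain S u hu)
        have h2 : (S.filter (fun x => u * x ∉ S)).card + m = S.card := by
          rw [hm, hum]
          unfold rep
          rw [add_comm]
          convert Finset.card_filter_add_card_filter_not (s := S) (fun x => u * x ∈ S)
        have h3 : ((S.filter (fun x => u * x ∉ S)).card : ℝ) = S.card - m := by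
          have : (((S.filter (fun x => u * x ∉ S)).card + m : ℕ) : ℝ) = S.card := by
            exact_mod_cast h2
          push_cast at this
          linarith
        rw [h3] at h1
        have h4 : (S.card : ℝ) * (S.card - 1) < (2 * (S.card : ℝ) - 1) * m := by
          have h2 : ((S.card * (S.card - 1) : ℕ) : ℝ) < (((2 * S.card - 1) * m : ℕ) : ℝ) := by
            exact_mod_cast hc
          rw [Nat.cast_mul, Nat.cast_mul, Nat.cast_sub (by omega), Nat.cast_sub (by omega)] at h2
          push_cast at h2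
          exact h2
        have hpos : (0 : ℝ) < 2 * (S.card : ℝ) - 1 := by linarith
        calc (2 * (S.card : ℝ) - 1) ≤ (2 * (S.card : ℝ) - 1) * ((S.card - m) * rk α) := by
              nlinarith
          _ = rk α * ((2 * (S.card : ℝ) - 1) * (S.card - m)) := by ring
          _ ≤ rk α * (S.card : ℝ) ^ 2 := by
              apply mul_le_mul_of_nonneg_left _ hr0
              nlinarith

end

end Run7.h266.AZ
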